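import Pool.Agent.W_9986fc_h48.Lin
import Pool.Agent.W_9986fc_h15.Cube

set_option autoImplicit false
set_option maxSynthPendingDepth 3

open scoped ContDiff Manifold Topology
open Pool.Agent.W_9986fc_h15 (mean Per)

namespace Pool.Agent.W_9986fc_h48

section Local

variable {k m : ℕ} {H : Type*} [NormedAddCommGroup H] [NormedSpace ℝ H] [CompleteSpace H]
  {U : Set (R m)} {F : V k m → H}

/-- Cut off: a smooth periodic function on `ℝ^k × U` agrees near `ℝ^k × {y}` with a smooth periodic
function on `ℝ^k × ℝ^m`. -/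
theorem exists_cutoff (hU : IsOpen U) (hF : ContDiffOn ℝ ∞ F (Set.univ ×ˢ U))
    (hper : ∀ v, ∀ y ∈ U, ∀ z : Fin k → ℤ, F (v + fun i => (z i : ℝ), y) = F (v, y))
    {y : R m} (hy : y ∈ U) :
    ∃ G : V k m → H, ContDiff ℝ ∞ G ∧ Per G ∧
      ∀ᶠ y' in 𝓝 y, ∀ v, G (v, y') = F (v, y') := by
  obtain ⟨ρ, hρ, hball⟩ := Metric.isOpen_iff.1 hU y hy
  let χ : ContDiffBump y := ⟨ρ / 4, ρ / 2, by positivity, by linarith⟩
  have hsupp : ∀ z : R m, z ∉ U → χ =ᶠ[𝓝 z] fun _ => 0 := by
    intro z hz
    have h1 : z ∉ Metric.closedBall y (ρ / 2) := by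
      intro h2
      refine hz (hball ?_)
      rw [Metric.mem_ball]
      rw [Metric.mem_closedBall] at h2
      linarith
    have h2 : z ∈ (Metric.closedBall y (ρ / 2))ᶜ := h1
    filter_upwards [Metric.isClosed_closedBall.isOpen_compl.mem_nhds h2] with z' hz'
    refine χ.zero_of_le_dist ?_
    have h3 : ¬ dist z' y ≤ ρ / 2 := hz'
    show ρ / 2 ≤ dist z' y
    linarith
  refine ⟨fun p => χ p.2 • F p, ?_, ?_, ?_⟩
  · rw [contDiff_iff_contDiffAt]
    intro p
    by_cases hp : p.2 ∈ U
    · have h1 : ContDiffAt ℝ ∞ F p :=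
        hF.contDiffAt ((isOpen_univ.prod hU).mem_nhds ⟨trivial, hp⟩)
      have h2 : ContDiffAt ℝ ∞ (fun p : V k m => χ p.2) p :=
        (χ.contDiff (n := ⊤)).contDiffAt.comp p contDiffAt_snd
      exact h2.smul h1
    · have h1 : (fun p : V k m => χ p.2 • F p) =ᶠ[𝓝 p] fun _ => 0 := by
        have h2 : ∀ᶠ q : V k m in 𝓝 p, χ q.2 = 0 :=
          continuousAt_snd.eventually (hsupp p.2 hp)
        filter_upwards [h2] with q hq
        rw [hq, zero_smul]
      exact contDiffAt_const.congr_of_eventuallyEq h1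
  · intro z v y'
    by_cases hy' : y' ∈ U
    · show χ y' • F (v + fun i => (z i : ℝ), y') = χ y' • F (v, y')
      rw [hper v y' hy' z]
    · have h2 : χ y' = 0 := (hsupp y' hy').self_of_nhds
      show χ y' • _ = χ y' • _
      rw [h2, zero_smul, zero_smul]
  · have h1 : ∀ᶠ y' in 𝓝 y, χ y' = 1 := χ.eventuallyEq_one
    filter_upwards [h1] with y' hy' v
    show χ y' • F (v, y') = F (v, y')
    rw [hy', one_smul]

theorem mean_congr {G : V k m → H} {y : R m} (h : ∀ v, G (v, y) = F (v, y)) :
    mean G y = mean F y := by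
  unfold mean
  simp only [h]

/-- The mean over the torus of a smooth periodic function is smooth. -/
theorem mean_contDiffAt (hU : IsOpen U) (hF : ContDiffOn ℝ ∞ F (Set.univ ×ˢ U))
    (hper : ∀ v, ∀ y ∈ U, ∀ z : Fin k → ℤ, F (v + fun i => (z i : ℝ), y) = F (v, y))
    {y : R m} (hy : y ∈ U) : ContDiffAt ℝ ∞ (mean F) y := by
  obtain ⟨G, hG, -, hGF⟩ := exists_cutoff hU hF hper hy
  have h1 := (Pool.Agent.W_9986fc_h15.contDiff_mean G hG).contDiffAt (x := y)
  refine h1.congr_of_eventuallyEq ?_
  filter_upwards [hGF] with y' hy'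
  exact (mean_congr hy').symm

/-- Derivatives commute with the mean. -/
theorem fderiv_mean' (hU : IsOpen U) (hF : ContDiffOn ℝ ∞ F (Set.univ ×ˢ U))
    (hper : ∀ v, ∀ y ∈ U, ∀ z : Fin k → ℤ, F (v + fun i => (z i : ℝ), y) = F (v, y))
    {y : R m} (hy : y ∈ U) (a : V k m) :
    fderiv ℝ (mean F) y a.2 = mean (fun x => fderiv ℝ F x a) y := by
  obtain ⟨G, hG, hGper, hGF⟩ := exists_cutoff hU hF hper hy
  have h1 : mean F =ᶠ[𝓝 y] mean G := by
    filter_upwards [hGF] with y' hy'
    exact (mean_congr hy').symm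
  rw [h1.fderiv_eq, Pool.Agent.W_9986fc_h15.fderiv_mean G hG y a.2]
  have h2 : ∀ v, fderiv ℝ G (v, y) = fderiv ℝ F (v, y) := by
    intro v
    have h3 : G =ᶠ[𝓝 ((v, y) : V k m)] F := by
      have h4 : ∀ᶠ p : V k m in 𝓝 (v, y), ∀ v, G (v, p.2) = F (v, p.2) :=
        (continuousAt_snd (p := ((v, y) : V k m))).eventually
          (p := fun y' : R m => ∀ v, G (v, y') = F (v, y')) hGF
      filter_upwards [h4] with p hp
      exact hp p.1
    exact h3.fderiv_eq
  have h5 := Pool.Agent.W_9986fc_h15.mean_fderiv_vert G hG hGper a.1 y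
  have hcont : ∀ b : V k m, Continuous (fun x => fderiv ℝ G x b) := fun b =>
    (hG.continuous_fderiv (by simp)).clm_apply continuous_const
  have h6 := Pool.Agent.W_9986fc_h15.mean_add_fun (fun x => fderiv ℝ G x (a.1, 0))
    (fun x => fderiv ℝ G x (0, a.2)) (hcont _) (hcont _) y
  rw [h5, zero_add] at h6
  rw [← h6]
  refine mean_congr fun v => ?_
  rw [← h2 v, ← map_add]
  congr 1
  simp

end Local

section Mean

variable {m : ℕ} {X : Type} [TopologicalSpace X] [ChartedSpace (R m) X] {k : ℕ}
  {w : OpenPartialHomeomorph X (R m) → V k m → V k m →L[ℝ] V k m →L[ℝ] ℝ}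

/-- The average of `w` over the torus. -/
noncomputable def ave
    (w : OpenPartialHomeomorph X (R m) → V k m → V k m →L[ℝ] V k m →L[ℝ] ℝ)
    (e : OpenPartialHomeomorph X (R m)) (p : V k m) : V k m →L[ℝ] V k m →L[ℝ] ℝ :=
  mean (w e) p.2

theorem integrable_slice {H : Type*} [NormedAddCommGroup H] {U : Set (R m)} {F : V k m → H}
    (hF : ContinuousOn F (Set.univ ×ˢ U)) {y : R m} (hy : y ∈ U) :
    MeasureTheory.Integrable (fun v : R k => F (v, y))
      (MeasureTheory.volume.restrict (Set.Icc (0 : R k) 1)) := by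
  have h : ContinuousOn (fun v : R k => F (v, y)) (Set.Icc (0 : R k) 1) :=
    hF.comp (by fun_prop) (fun v _ => ⟨trivial, hy⟩)
  exact h.integrableOn_compact isCompact_Icc

theorem mean_apply_apply {U : Set (R m)} {F : V k m → V k m →L[ℝ] V k m →L[ℝ] ℝ}
    (hF : ContinuousOn F (Set.univ ×ˢ U)) {y : R m} (hy : y ∈ U) (a b : V k m) :
    mean F y a b = mean (fun x => F x a b) y := by
  unfold mean
  have h1 := integrable_slice hF hy
  rw [ContinuousLinearMap.integral_apply h1, ContinuousLinearMap.integral_apply]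
  exact h1.apply_continuousLinearMap a

theorem ave_apply (hw : ClosedForm k w) {e : OpenPartialHomeomorph X (R m)}
    (he : e ∈ atlas (R m) X) (v : R k) {y : R m} (hy : y ∈ e.target) (a b : V k m) :
    ave w e (v, y) a b = mean (fun x => w e x a b) y :=
  mean_apply_apply (hw.smooth e he).continuousOn hy a b

theorem ave_closedForm (hw : ClosedForm k w) (hp : Periodic k w) : ClosedForm k (ave w) where
  smooth := by
    intro e he p hq
    have h1 := mean_contDiffAt e.open_target (hw.smooth e he) (hp e he) hq.2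
    exact (h1.comp p contDiffAt_snd).contDiffWithinAt
  alt := by
    intro e he v y hy a
    rw [ave_apply hw he v hy]
    have h1 : mean (fun x => w e x a a) y = mean (fun _ : V k m => (0 : ℝ)) y :=
      mean_congr fun v => hw.alt e he v y hy a
    rw [h1]
    simp [mean]
  compat := by
    intro e he e' he' v x hx hx' a b
    rw [ave_apply hw he v (e.map_source hx), ave_apply hw he' v (e'.map_source hx')]
    exact MeasureTheory.integral_congr_ae
      (Filter.Eventually.of_forall fun v => hw.compat e he e' he' v x hx hx' a b)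
  closed := by
    intro e he v y hy a b c
    have h1 : ∀ a, fderiv ℝ (ave w e) (v, y) a = mean (fun x => fderiv ℝ (w e) x a) y := by
      intro a
      have h2 := mean_contDiffAt e.open_target (hw.smooth e he) (hp e he) hy
      have h3 := (h2.differentiableAt (by simp)).hasFDerivAt
      have h4 : HasFDerivAt (ave w e) ((fderiv ℝ (mean (w e)) y).comp
          (ContinuousLinearMap.snd ℝ (R k) (R m))) (v, y) :=
        HasFDerivAt.comp ((v, y) : V k m) h3 hasFDerivAt_snd
      rw [h4.fderiv]
      exact fderiv_mean' e.open_target (hw.smooth e he) (hp e he) hy a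
    have hc : ContinuousOn (fderiv ℝ (w e)) (Set.univ ×ˢ e.target) :=
      (hw.smooth e he).continuousOn_fderiv_of_isOpen (isOpen_univ.prod e.open_target) (by simp)
    have hc1 : ∀ a, ContinuousOn (fun x => fderiv ℝ (w e) x a) (Set.univ ×ˢ e.target) := fun a =>
      hc.clm_apply continuousOn_const
    have hc3 : ∀ a b c, ContinuousOn (fun x => fderiv ℝ (w e) x a b c)
        (Set.univ ×ˢ e.target) := fun a b c =>
      ((hc1 a).clm_apply continuousOn_const).clm_apply continuousOn_const
    rw [h1, h1, h1, mean_apply_apply (hc1 a) hy, mean_apply_apply (hc1 b) hy,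
      mean_apply_apply (hc1 c) hy]
    have i1 := integrable_slice (hc3 a b c) hy
    have i2 := integrable_slice (hc3 b c a) hy
    have i3 := integrable_slice (hc3 c a b) hy
    have h5 : ∀ v, fderiv ℝ (w e) (v, y) a b c + fderiv ℝ (w e) (v, y) b c a
        + fderiv ℝ (w e) (v, y) c a b = 0 := fun v => hw.closed e he v y hy a b c
    have h6 := MeasureTheory.integral_add (i1.add i2) i3
    have h7 := MeasureTheory.integral_add i1 i2
    simp only [Pi.add_apply, h5, MeasureTheory.integral_zero] at h6 h7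
    unfold mean
    rw [h6, h7]

theorem volume_cube (k : ℕ) : MeasureTheory.volume (Set.Icc (0 : R k) 1) = 1 := by
  rw [Real.volume_Icc_pi]
  simp

theorem ave_symplectic (hw : Symplectic k w) (hp : Periodic k w) (ht : TamesInvariant k w) :
    Symplectic k (ave w) where
  toClosedForm := ave_closedForm hw.toClosedForm hp
  nondeg := by
    intro e he v y hy a h
    by_contra ha
    obtain ⟨A, hA⟩ := ht e he y hy
    have h1 := h (A a)
    rw [ave_apply hw.toClosedForm he v hy] at h1
    have hc : ContinuousOn (fun x => w e x a (A a)) (Set.univ ×ˢ e.target) :=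
      ((hw.smooth e he).continuousOn.clm_apply continuousOn_const).clm_apply continuousOn_const
    have h2 := integrable_slice hc hy
    have h3 : 0 < ∫ v in Set.Icc (0 : R k) 1, w e (v, y) a (A a) := by
      rw [MeasureTheory.integral_pos_iff_support_of_nonneg (fun v => (hA v a ha).le) h2]
      have h4 : Function.support (fun v : R k => w e (v, y) a (A a)) = Set.univ := by
        ext v
        simp only [Function.mem_support, Set.mem_univ, iff_true]
        exact (hA v a ha).ne'
      rw [h4, MeasureTheory.Measure.restrict_apply_univ, volume_cube]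
      exact one_pos
    exact h3.ne' h1

omit [ChartedSpace (R m) X] in
theorem ave_eq (e : OpenPartialHomeomorph X (R m)) (v v' : R k) (y : R m) :
    ave w e (v, y) = ave w e (v', y) := rfl

theorem ave_invariant : Invariant k (ave w) := fun _ _ _ _ _ _ => rfl

end Mean

end Pool.Agent.W_9986fc_h48
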