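import Pool.Agent.W_9986fc_h48.Defs

set_option autoImplicit false
set_option maxSynthPendingDepth 3

open scoped ContDiff Manifold Topology

namespace Pool.Agent.W_9986fc_h48

variable {m : ℕ} {X : Type} [TopologicalSpace X]

section Trans

theorem tr_self (e : OpenPartialHomeomorph X (R m)) {x : X} (hx : x ∈ e.source) :
    tr e e x = ContinuousLinearMap.id ℝ (R m) := by
  unfold tr
  have h : (e ∘ e.symm) =ᶠ[𝓝 (e x)] id := by
    filter_upwards [e.open_target.mem_nhds (e.map_source hx)] with y hy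
    exact e.right_inv hy
  rw [h.fderiv_eq, fderiv_id]

variable [ChartedSpace (R m) X] [IsManifold 𝓘(ℝ, R m) ∞ X]

theorem contDiffOn_trans {e e' : OpenPartialHomeomorph X (R m)} (he : e ∈ atlas (R m) X)
    (he' : e' ∈ atlas (R m) X) :
    ContDiffOn ℝ ∞ (e' ∘ e.symm) (e.symm ≫ₕ e').source := by
  have h := (mem_groupoid_of_pregroupoid.1
    (HasGroupoid.compatible (G := contDiffGroupoid ∞ 𝓘(ℝ, R m)) he he')).1
  simpa [contDiffPregroupoid] using h

theorem differentiableAt_trans {e e' : OpenPartialHomeomorph X (R m)} (he : e ∈ atlas (R m) X)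
    (he' : e' ∈ atlas (R m) X) {x : X} (hx : x ∈ e.source) (hx' : x ∈ e'.source) :
    DifferentiableAt ℝ (e' ∘ e.symm) (e x) := by
  have h := contDiffOn_trans he he'
  have h1 : e x ∈ (e.symm ≫ₕ e').source := by
    simp [hx, hx', e.map_source hx]
  exact (h.differentiableOn (by simp)).differentiableAt ((e.symm ≫ₕ e').open_source.mem_nhds h1)

theorem tr_trans {e e' e'' : OpenPartialHomeomorph X (R m)} (he : e ∈ atlas (R m) X)
    (he' : e' ∈ atlas (R m) X) (he'' : e'' ∈ atlas (R m) X) {x : X} (hx : x ∈ e.source)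
    (hx' : x ∈ e'.source) (hx'' : x ∈ e''.source) :
    (tr e' e'' x).comp (tr e e' x) = tr e e'' x := by
  have h1 := (differentiableAt_trans he he' hx hx').hasFDerivAt
  have h2 := (differentiableAt_trans he' he'' hx' hx'').hasFDerivAt
  have h3 : (e' ∘ e.symm) (e x) = e' x := by simp [hx]
  rw [← h3] at h2
  have h4 := h2.comp (e x) h1
  have h5 : (e'' ∘ e'.symm) ∘ (e' ∘ e.symm) =ᶠ[𝓝 (e x)] e'' ∘ e.symm := by
    have h6 : (e.symm ≫ₕ e').source ∈ 𝓝 (e x) :=
      (e.symm ≫ₕ e').open_source.mem_nhds (by simp [hx, hx', e.map_source hx])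
    filter_upwards [h6] with y hy
    simp only [OpenPartialHomeomorph.trans_source, OpenPartialHomeomorph.symm_source,
      Set.mem_inter_iff, Set.mem_preimage] at hy
    simp [hy.2]
  have h7 := h4.congr_of_eventuallyEq h5.symm
  rw [h3] at h7
  unfold tr
  exact h7.fderiv.symm

theorem tr_left_inv {e e' : OpenPartialHomeomorph X (R m)} (he : e ∈ atlas (R m) X)
    (he' : e' ∈ atlas (R m) X) {x : X} (hx : x ∈ e.source) (hx' : x ∈ e'.source) (a : R m) :
    tr e' e x (tr e e' x a) = a := by
  have h := tr_trans he he' he hx hx' hx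
  rw [tr_self e hx] at h
  exact DFunLike.congr_fun h a

end Trans

section Form

variable [ChartedSpace (R m) X] {k : ℕ}
  {w : OpenPartialHomeomorph X (R m) → V k m → V k m →L[ℝ] V k m →L[ℝ] ℝ}

theorem ClosedForm.contDiffAt (hw : ClosedForm k w) {e : OpenPartialHomeomorph X (R m)}
    (he : e ∈ atlas (R m) X) (v : R k) {y : R m} (hy : y ∈ e.target) :
    ContDiffAt ℝ ∞ (w e) (v, y) :=
  (hw.smooth e he).contDiffAt ((isOpen_univ.prod e.open_target).mem_nhds ⟨trivial, hy⟩)

theorem ClosedForm.hasFDerivAt (hw : ClosedForm k w) {e : OpenPartialHomeomorph X (R m)}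
    (he : e ∈ atlas (R m) X) (v : R k) {y : R m} (hy : y ∈ e.target) :
    HasFDerivAt (w e) (fderiv ℝ (w e) (v, y)) (v, y) :=
  ((hw.contDiffAt he v hy).differentiableAt (by simp)).hasFDerivAt

theorem ClosedForm.hasFDerivAt_apply (hw : ClosedForm k w) {e : OpenPartialHomeomorph X (R m)}
    (he : e ∈ atlas (R m) X) (v : R k) {y : R m} (hy : y ∈ e.target) (a b : V k m) :
    HasFDerivAt (fun p => w e p a b)
      (((fderiv ℝ (w e) (v, y)).flip a).flip b) (v, y) := by
  have h := ((hw.hasFDerivAt he v hy).clm_apply (hasFDerivAt_const a (v, y))).clm_apply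
    (hasFDerivAt_const b (v, y))
  refine h.congr_fderiv ?_
  ext c <;> simp

theorem ClosedForm.swap (hw : ClosedForm k w) {e : OpenPartialHomeomorph X (R m)}
    (he : e ∈ atlas (R m) X) (v : R k) {y : R m} (hy : y ∈ e.target) (a b : V k m) :
    w e (v, y) a b = - w e (v, y) b a := by
  have h1 := hw.alt e he v y hy (a + b)
  have h2 := hw.alt e he v y hy a
  have h3 := hw.alt e he v y hy b
  simp only [map_add, add_apply, h2, h3] at h1
  linarith

theorem ClosedForm.fderiv_swap (hw : ClosedForm k w) {e : OpenPartialHomeomorph X (R m)}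
    (he : e ∈ atlas (R m) X) (v : R k) {y : R m} (hy : y ∈ e.target) (c a b : V k m) :
    fderiv ℝ (w e) (v, y) c a b = - fderiv ℝ (w e) (v, y) c b a := by
  have h1 := hw.hasFDerivAt_apply he v hy a b
  have h2 := (hw.hasFDerivAt_apply he v hy b a).neg
  have h3 : (fun p => w e p a b) =ᶠ[𝓝 ((v, y) : V k m)] fun p => - w e p b a := by
    filter_upwards [(isOpen_univ.prod e.open_target).mem_nhds
      (show ((v, y) : V k m) ∈ Set.univ ×ˢ e.target from ⟨trivial, hy⟩)] with p hp
    exact hw.swap he p.1 hp.2 a b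
  have h4 := (h1.congr_of_eventuallyEq h3.symm).unique h2
  have h5 := DFunLike.congr_fun h4 c
  simpa using h5

theorem Invariant.eq_zero (hi : Invariant k w) {e : OpenPartialHomeomorph X (R m)}
    (he : e ∈ atlas (R m) X) (v : R k) {y : R m} (hy : y ∈ e.target) :
    w e (v, y) = w e (0, y) := by
  have h := hi e he 0 y hy v
  rwa [zero_add] at h

theorem Invariant.fderiv_vert (hi : Invariant k w) (hw : ClosedForm k w)
    {e : OpenPartialHomeomorph X (R m)} (he : e ∈ atlas (R m) X) (v : R k) {y : R m}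
    (hy : y ∈ e.target) (r : R k) : fderiv ℝ (w e) (v, y) (r, 0) = 0 := by
  have h1 : HasFDerivAt (w e) (fderiv ℝ (w e) (v, y)) ((v + (0 : ℝ) • r, y) : V k m) := by
    rw [zero_smul, add_zero]
    exact hw.hasFDerivAt he v hy
  have h2 : HasDerivAt (fun s : ℝ => ((v + s • r, y) : V k m)) (r, 0) 0 := by
    have h3 : HasDerivAt (fun s : ℝ => v + s • r) r 0 := by
      simpa using ((hasDerivAt_id (0 : ℝ)).smul_const r).const_add v
    exact h3.prodMk (hasDerivAt_const 0 y)
  have h4 := h1.comp_hasDerivAt 0 h2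
  have h5 : (w e ∘ fun s : ℝ => ((v + s • r, y) : V k m)) = fun _ => w e (v, y) := by
    funext s
    exact hi e he v y hy (s • r)
  rw [h5] at h4
  exact h4.unique (hasDerivAt_const 0 _)

/-- The 1-form `w (r, ·)` is closed. -/
theorem Invariant.fderiv_one (hi : Invariant k w) (hw : ClosedForm k w)
    {e : OpenPartialHomeomorph X (R m)} (he : e ∈ atlas (R m) X) (v : R k) {y : R m}
    (hy : y ∈ e.target) (r : R k) (a b : V k m) :
    fderiv ℝ (w e) (v, y) a (r, 0) b = fderiv ℝ (w e) (v, y) b (r, 0) a := by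
  have h1 := hw.closed e he v y hy (r, 0) a b
  rw [hi.fderiv_vert hw he v hy r] at h1
  have h2 := hw.fderiv_swap he v hy a b (r, 0)
  simp only [zero_apply, zero_add] at h1
  linarith

/-- The functions `w (r, r')` are locally constant. -/
theorem Invariant.fderiv_two (hi : Invariant k w) (hw : ClosedForm k w)
    {e : OpenPartialHomeomorph X (R m)} (he : e ∈ atlas (R m) X) (v : R k) {y : R m}
    (hy : y ∈ e.target) (r r' : R k) (a : V k m) :
    fderiv ℝ (w e) (v, y) a (r, 0) (r', 0) = 0 := by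
  have h1 := hi.fderiv_one hw he v hy r a (r', 0)
  rw [h1, hi.fderiv_vert hw he v hy r']
  simp

end Form

end Pool.Agent.W_9986fc_h48
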