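import Pool.Agent.W_9986fc_h48.Lin

set_option autoImplicit false
set_option maxSynthPendingDepth 3

open scoped ContDiff Manifold Topology

namespace Pool.Agent.W_9986fc_h48

variable {m : ℕ} {X : Type} [TopologicalSpace X] [ChartedSpace (R m) X] {k : ℕ}
  {w : OpenPartialHomeomorph X (R m) → V k m → V k m →L[ℝ] V k m →L[ℝ] ℝ}

/-- Nondegeneracy at a point does not depend on the chart. -/
theorem ClosedForm.nondeg_transfer [IsManifold 𝓘(ℝ, R m) ∞ X] (hw : ClosedForm k w)
    {e e' : OpenPartialHomeomorph X (R m)}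
    (he : e ∈ atlas (R m) X) (he' : e' ∈ atlas (R m) X) (v : R k) {x : X} (hx : x ∈ e.source)
    (hx' : x ∈ e'.source) (hn : ∀ a, (∀ b, w e (v, e x) a b = 0) → a = 0) (a : V k m)
    (ha : ∀ b, w e' (v, e' x) a b = 0) : a = 0 := by
  have h1 : ((a.1, tr e' e x a.2) : V k m) = 0 := by
    refine hn _ fun b => ?_
    rw [hw.compat e he e' he' v x hx hx']
    have h2 : tr e e' x (tr e' e x a.2) = a.2 := tr_left_inv he' he hx' hx a.2
    simp only [h2]
    exact ha _
  have h3 : a.1 = 0 := congrArg Prod.fst h1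
  have h4 : tr e' e x a.2 = 0 := congrArg Prod.snd h1
  have h5 : a.2 = 0 := by
    rw [← tr_left_inv he' he hx' hx a.2, h4, map_zero]
  exact Prod.ext h3 h5

/-- The values of `w` on constant vector fields of the torus are constant. -/
theorem const_pair [PreconnectedSpace X] [Nonempty X] (hw : ClosedForm k w) (hi : Invariant k w)
    (r r' : R k) :
    ∃ c : ℝ, ∀ e ∈ atlas (R m) X, ∀ y ∈ e.target, w e (0, y) (r, 0) (r', 0) = c := by
  set f : X → ℝ := fun x => w (chartAt (R m) x) (0, chartAt (R m) x x) (r, 0) (r', 0) with hf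
  have h1 : ∀ e ∈ atlas (R m) X, ∀ x ∈ e.source, w e (0, e x) (r, 0) (r', 0) = f x := by
    intro e he x hx
    have h := hw.compat e he (chartAt (R m) x) (chart_mem_atlas _ x) 0 x hx
      (mem_chart_source _ x) (r, 0) (r', 0)
    simpa using h
  have h2 : IsLocallyConstant f := by
    refine (IsLocallyConstant.iff_eventually_eq f).2 fun x => ?_
    set e := chartAt (R m) x with he
    have hea : e ∈ atlas (R m) X := chart_mem_atlas _ x
    have hxe : x ∈ e.source := mem_chart_source _ x
    obtain ⟨ρ, hρ, hball⟩ := Metric.isOpen_iff.1 e.open_target (e x) (e.map_source hxe)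
    have hd : ∀ y ∈ e.target, HasFDerivAt (fun y : R m => w e (0, y) (r, 0) (r', 0))
        (0 : R m →L[ℝ] ℝ) y := by
      intro y hy
      have h3 := hw.hasFDerivAt_apply hea 0 hy (r, 0) (r', 0)
      have h4 := HasFDerivAt.comp (g := fun p => w e p (r, 0) (r', 0)) y h3
        (hasFDerivAt_prodMk_right (𝕜 := ℝ) (0 : R k) y)
      refine h4.congr_fderiv ?_
      ext a
      have h5 := hi.fderiv_two hw hea 0 hy r r' (0, a)
      simpa using h5
    have hconst : ∀ y ∈ Metric.ball (e x) ρ,
        w e (0, y) (r, 0) (r', 0) = w e (0, e x) (r, 0) (r', 0) := by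
      intro y hy
      have h6 := (convex_ball (e x) ρ).is_const_of_fderivWithin_eq_zero (𝕜 := ℝ)
        (f := fun y : R m => w e (0, y) (r, 0) (r', 0))
        (fun z hz => (hd z (hball hz)).differentiableAt.differentiableWithinAt)
        (fun z hz => by
          rw [(hd z (hball hz)).hasFDerivWithinAt.fderivWithin
            (Metric.isOpen_ball.uniqueDiffWithinAt hz)])
        hy (Metric.mem_ball_self hρ)
      exact h6
    have h71 : ∀ᶠ x' in 𝓝 x, x' ∈ e.source := e.open_source.mem_nhds hxe
    have h7 : ∀ᶠ x' in 𝓝 x, x' ∈ e.source ∧ e x' ∈ Metric.ball (e x) ρ :=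
      h71.and ((e.continuousAt hxe).eventually (Metric.ball_mem_nhds _ hρ))
    filter_upwards [h7] with x' hx'
    rw [← h1 e hea x' hx'.1, ← h1 e hea x hxe]
    exact hconst _ hx'.2
  refine ⟨f (Classical.arbitrary X), fun e he y hy => ?_⟩
  have h3 := h1 e he (e.symm y) (e.map_target hy)
  rw [e.right_inv hy] at h3
  rw [h3]
  exact h2.apply_eq_of_preconnectedSpace _ _

end Pool.Agent.W_9986fc_h48
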