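import Mathlib

/-!
Definitions for MP_9986fc_gt, invariant symplectic forms on `T^k × X` (helper48).

`X` is a smooth manifold modelled on `ℝ^m`.  Differential 2-forms on `ℝ^k × X` are given in the charts
`id × e`, `e` a chart of `X`.  Forms on `T^k × X` are the `ℤ^k`-periodic forms on `ℝ^k × X`, forms on
`X` are the forms on `ℝ^0 × X`.
-/

set_option autoImplicit false
set_option maxSynthPendingDepth 3

open scoped ContDiff Manifold

namespace Pool.Agent.W_9986fc_h48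

/-- The vector space `ℝ^n`. -/
abbrev R (n : ℕ) := Fin n → ℝ

/-- The vector space `ℝ^k × ℝ^m`. -/
abbrev V (k m : ℕ) := R k × R m

variable {m : ℕ} {X : Type} [TopologicalSpace X]

/-- The differential at `e x` of the change of charts from `e` to `e'`. -/
noncomputable def tr (e e' : OpenPartialHomeomorph X (R m)) (x : X) : R m →L[ℝ] R m :=
  fderiv ℝ (e' ∘ e.symm) (e x)

variable [ChartedSpace (R m) X]

/-- The family `w e`, `e` a chart of `X`, of fields of bilinear forms on `ℝ^k × e.target` is a smooth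
closed 2-form on `ℝ^k × X`. -/
structure ClosedForm (k : ℕ)
    (w : OpenPartialHomeomorph X (R m) → V k m → V k m →L[ℝ] V k m →L[ℝ] ℝ) : Prop where
  smooth : ∀ e ∈ atlas (R m) X, ContDiffOn ℝ ∞ (w e) (Set.univ ×ˢ e.target)
  alt : ∀ e ∈ atlas (R m) X, ∀ v, ∀ y ∈ e.target, ∀ a, w e (v, y) a a = 0
  compat : ∀ e ∈ atlas (R m) X, ∀ e' ∈ atlas (R m) X, ∀ v, ∀ x ∈ e.source, x ∈ e'.source →
    ∀ a b, w e (v, e x) a b = w e' (v, e' x) (a.1, tr e e' x a.2) (b.1, tr e e' x b.2)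
  closed : ∀ e ∈ atlas (R m) X, ∀ v, ∀ y ∈ e.target, ∀ a b c,
    fderiv ℝ (w e) (v, y) a b c + fderiv ℝ (w e) (v, y) b c a + fderiv ℝ (w e) (v, y) c a b = 0

/-- The form `w` is a symplectic form on `ℝ^k × X`: closed and nondegenerate. -/
structure Symplectic (k : ℕ)
    (w : OpenPartialHomeomorph X (R m) → V k m → V k m →L[ℝ] V k m →L[ℝ] ℝ) : Prop
    extends ClosedForm k w where
  nondeg : ∀ e ∈ atlas (R m) X, ∀ v, ∀ y ∈ e.target, ∀ a, (∀ b, w e (v, y) a b = 0) → a = 0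

/-- `ℤ^k`-periodic: the form lives on `T^k × X`. -/
def Periodic (k : ℕ)
    (w : OpenPartialHomeomorph X (R m) → V k m → V k m →L[ℝ] V k m →L[ℝ] ℝ) : Prop :=
  ∀ e ∈ atlas (R m) X, ∀ v, ∀ y ∈ e.target, ∀ z : Fin k → ℤ,
    w e (v + fun i => (z i : ℝ), y) = w e (v, y)

/-- `ℝ^k`-invariant: the form lives on `T^k × X` and is `T^k`-invariant. -/
def Invariant (k : ℕ)
    (w : OpenPartialHomeomorph X (R m) → V k m → V k m →L[ℝ] V k m →L[ℝ] ℝ) : Prop :=
  ∀ e ∈ atlas (R m) X, ∀ v, ∀ y ∈ e.target, ∀ z : R k, w e (v + z, y) = w e (v, y)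

/-- The form `w` tames a `T^k`-invariant field of endomorphisms: at every point of `X` there is an
endomorphism `A` of the tangent space of `ℝ^k × X` with `w (a, A a) > 0` for all `a ≠ 0`, along the
whole orbit of the point (for example `A = J` for a `T^k`-invariant almost complex structure `J`
tamed by `w`). -/
def TamesInvariant (k : ℕ)
    (w : OpenPartialHomeomorph X (R m) → V k m → V k m →L[ℝ] V k m →L[ℝ] ℝ) : Prop :=
  ∀ e ∈ atlas (R m) X, ∀ y ∈ e.target, ∃ A : V k m →ₗ[ℝ] V k m,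
    ∀ v, ∀ a, a ≠ 0 → 0 < w e (v, y) a (A a)

/-- The family `α e`, `e` a chart of `X`, is a smooth closed 1-form on `X`. -/
structure ClosedOneForm (α : OpenPartialHomeomorph X (R m) → R m → R m →L[ℝ] ℝ) : Prop where
  smooth : ∀ e ∈ atlas (R m) X, ContDiffOn ℝ ∞ (α e) e.target
  compat : ∀ e ∈ atlas (R m) X, ∀ e' ∈ atlas (R m) X, ∀ x ∈ e.source, x ∈ e'.source →
    ∀ a, α e (e x) a = α e' (e' x) (tr e e' x a)
  closed : ∀ e ∈ atlas (R m) X, ∀ y ∈ e.target, ∀ a b,
    fderiv ℝ (α e) y a b = fderiv ℝ (α e) y b a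

/-- The closed 1-form `α` and the closed 2-form `g` on `X` are a cosymplectic structure: at every
point `α ≠ 0` and `g` is nondegenerate on the kernel of `α` (that is, `α ∧ g ^ r` has no zero,
`dim X = 2 r + 1`). -/
structure Cosymplectic (α : OpenPartialHomeomorph X (R m) → R m → R m →L[ℝ] ℝ)
    (g : OpenPartialHomeomorph X (R m) → V 0 m → V 0 m →L[ℝ] V 0 m →L[ℝ] ℝ) : Prop where
  one : ClosedOneForm α
  two : ClosedForm 0 g
  ne_zero : ∀ e ∈ atlas (R m) X, ∀ y ∈ e.target, α e y ≠ 0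
  nondeg : ∀ e ∈ atlas (R m) X, ∀ v, ∀ y ∈ e.target, ∀ a, α e y a.2 = 0 →
    (∀ b, α e y b.2 = 0 → g e (v, y) a b = 0) → a = 0

end Pool.Agent.W_9986fc_h48
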