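import Pool.Agent.W_9986fc_h48.Lin

set_option autoImplicit false
set_option maxSynthPendingDepth 3

open scoped ContDiff Manifold Topology

namespace Pool.Agent.W_9986fc_h48

variable {m : ℕ} {X : Type} [TopologicalSpace X] [ChartedSpace (R m) X] {k : ℕ}
  {w : OpenPartialHomeomorph X (R m) → V (k + 2) m → V (k + 2) m →L[ℝ] V (k + 2) m →L[ℝ] ℝ}

/-- The form `w (x, ·)` on `ℝ^k × ℝ^m`, in a chart. -/
noncomputable def theta
    (w : OpenPartialHomeomorph X (R m) → V (k + 2) m → V (k + 2) m →L[ℝ] V (k + 2) m →L[ℝ] ℝ)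
    (e : OpenPartialHomeomorph X (R m)) (x : V (k + 2) m) (p : V k m) : V k m →L[ℝ] ℝ :=
  (w e (Inc k m p) x).comp (Inc k m)

/-- The reduction of `w` in the directions of the first two coordinates. -/
noncomputable def down
    (w : OpenPartialHomeomorph X (R m) → V (k + 2) m → V (k + 2) m →L[ℝ] V (k + 2) m →L[ℝ] ℝ)
    (c : ℝ) (e : OpenPartialHomeomorph X (R m)) (p : V k m) :
    V k m →L[ℝ] V k m →L[ℝ] ℝ :=
  pullL (Inc k m) (w e (Inc k m p)) +
    c⁻¹ • ((theta w e (u1 k, 0) p).smulRight (theta w e (u0 k, 0) p) -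
      (theta w e (u0 k, 0) p).smulRight (theta w e (u1 k, 0) p))

omit [ChartedSpace (R m) X] in
theorem theta_apply (e : OpenPartialHomeomorph X (R m)) (x : V (k + 2) m) (p b : V k m) :
    theta w e x p b = w e (Inc k m p) x (Inc k m b) := rfl

omit [ChartedSpace (R m) X] in
theorem down_apply (c : ℝ) (e : OpenPartialHomeomorph X (R m)) (p a b : V k m) :
    down w c e p a b = w e (Inc k m p) (Inc k m a) (Inc k m b) +
      c⁻¹ * (w e (Inc k m p) (u1 k, 0) (Inc k m a) * w e (Inc k m p) (u0 k, 0) (Inc k m b) -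
        w e (Inc k m p) (u0 k, 0) (Inc k m a) * w e (Inc k m p) (u1 k, 0) (Inc k m b)) := by
  simp [down, theta_apply]

theorem down_symplectic (hw : Symplectic (k + 2) w) (hi : Invariant (k + 2) w) {c : ℝ}
    (hc : c ≠ 0)
    (hcw : ∀ e ∈ atlas (R m) X, ∀ y ∈ e.target, w e (0, y) (u0 k, 0) (u1 k, 0) = c) :
    Symplectic k (down w c) ∧ Invariant k (down w c) := by
  have hmap : ∀ e : OpenPartialHomeomorph X (R m),
      Set.MapsTo (Inc k m) (Set.univ ×ˢ e.target) (Set.univ ×ˢ e.target) :=
    fun e p hp => ⟨trivial, hp.2⟩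
  have hsm : ∀ e ∈ atlas (R m) X,
      ContDiffOn ℝ ∞ (fun p => w e (Inc k m p)) (Set.univ ×ˢ e.target) :=
    fun e he => (hw.smooth e he).comp (Inc k m).contDiff.contDiffOn (hmap e)
  have hth : ∀ e ∈ atlas (R m) X, ∀ x, ContDiffOn ℝ ∞ (theta w e x) (Set.univ ×ˢ e.target) := by
    intro e he x
    exact ((hsm e he).clm_apply contDiffOn_const).clm_comp contDiffOn_const
  have hsmooth : ∀ e ∈ atlas (R m) X, ContDiffOn ℝ ∞ (down w c e) (Set.univ ×ˢ e.target) := by
    intro e he
    have h1 := ((hth e he (u1 k, 0)).smulRight (hth e he (u0 k, 0))).sub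
      ((hth e he (u0 k, 0)).smulRight (hth e he (u1 k, 0)))
    exact ((pullL (Inc k m)).contDiff.comp_contDiffOn (hsm e he)).add (h1.const_smul c⁻¹)
  refine ⟨⟨⟨hsmooth, ?_, ?_, ?_⟩, ?_⟩, ?_⟩
  · intro e he v y hy a
    rw [down_apply]
    have h := hw.alt e he (inc k v) y hy (Inc k m a)
    simp only [Inc_apply] at h ⊢
    rw [h]
    ring
  · intro e he e' he' v x hx hx' a b
    rw [down_apply, down_apply]
    have h1 := hw.compat e he e' he' (inc k v) x hx hx' (Inc k m a) (Inc k m b)
    have h2 := fun u : R (k + 2) =>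
      hw.compat e he e' he' (inc k v) x hx hx' (u, 0) (Inc k m a)
    have h3 := fun u : R (k + 2) =>
      hw.compat e he e' he' (inc k v) x hx hx' (u, 0) (Inc k m b)
    simp only [Inc_apply, map_zero] at h1 h2 h3 ⊢
    rw [h1, h2, h2, h3, h3]
  · intro e he v y hy a b d
    have hmem : Set.univ ×ˢ e.target ∈ 𝓝 ((v, y) : V k m) :=
      (isOpen_univ.prod e.open_target).mem_nhds ⟨trivial, hy⟩
    have hdiff : DifferentiableAt ℝ (down w c e) (v, y) :=
      ((hsmooth e he).contDiffAt hmem).differentiableAt (by simp)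
    have hg : ∀ x z : V (k + 2) m, HasFDerivAt (fun q : V k m => w e (Inc k m q) x z)
        ((((fderiv ℝ (w e) (inc k v, y)).flip x).flip z).comp (Inc k m)) (v, y) := by
      intro x z
      have h1 := hw.hasFDerivAt_apply he (inc k v) hy x z
      exact HasFDerivAt.comp (g := fun p => w e p x z) (f := Inc k m) (v, y) h1
        (Inc k m).hasFDerivAt
    have key : ∀ a b d : V k m, fderiv ℝ (down w c e) (v, y) a b d =
        fderiv ℝ (w e) (inc k v, y) (Inc k m a) (Inc k m b) (Inc k m d) +
        c⁻¹ * (fderiv ℝ (w e) (inc k v, y) (Inc k m a) (u1 k, 0) (Inc k m b) *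
            w e (inc k v, y) (u0 k, 0) (Inc k m d) +
          w e (inc k v, y) (u1 k, 0) (Inc k m b) *
            fderiv ℝ (w e) (inc k v, y) (Inc k m a) (u0 k, 0) (Inc k m d) -
          (fderiv ℝ (w e) (inc k v, y) (Inc k m a) (u0 k, 0) (Inc k m b) *
            w e (inc k v, y) (u1 k, 0) (Inc k m d) +
          w e (inc k v, y) (u0 k, 0) (Inc k m b) *
            fderiv ℝ (w e) (inc k v, y) (Inc k m a) (u1 k, 0) (Inc k m d))) := by
      intro a b d
      rw [fderiv_apply_apply hdiff]
      have h1 := (hg (Inc k m b) (Inc k m d)).add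
        ((((hg (u1 k, 0) (Inc k m b)).mul (hg (u0 k, 0) (Inc k m d))).sub
          ((hg (u0 k, 0) (Inc k m b)).mul (hg (u1 k, 0) (Inc k m d)))).const_mul c⁻¹)
      have h2 : (fun q => down w c e q b d) = fun q : V k m =>
          w e (Inc k m q) (Inc k m b) (Inc k m d) +
          c⁻¹ * (w e (Inc k m q) (u1 k, 0) (Inc k m b) * w e (Inc k m q) (u0 k, 0) (Inc k m d) -
            w e (Inc k m q) (u0 k, 0) (Inc k m b) * w e (Inc k m q) (u1 k, 0) (Inc k m d)) := by
        funext q
        exact down_apply c e q b d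
      rw [h2]
      refine (DFunLike.congr_fun h1.fderiv a).trans ?_
      simp only [add_apply, sub_apply, smul_apply, ContinuousLinearMap.comp_apply,
        ContinuousLinearMap.flip_apply, smul_eq_mul, Inc_apply]
      ring
    have s0 := fun a b : V k m =>
      hi.fderiv_one hw.toClosedForm he (inc k v) hy (u0 k) (Inc k m a) (Inc k m b)
    have s1 := fun a b : V k m =>
      hi.fderiv_one hw.toClosedForm he (inc k v) hy (u1 k) (Inc k m a) (Inc k m b)
    have hcl := hw.closed e he (inc k v) y hy (Inc k m a) (Inc k m b) (Inc k m d)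
    rw [key, key, key]
    rw [s0 b a, s0 d a, s0 d b, s1 b a, s1 d a, s1 d b]
    linear_combination hcl
  · intro e he v y hy a ha
    have hcv : w e (inc k v, y) (u0 k, 0) (u1 k, 0) = c := by
      rw [hi.eq_zero he (inc k v) hy]
      exact hcw e he y hy
    have hcv' : w e (inc k v, y) (u1 k, 0) (u0 k, 0) = -c := by
      rw [hw.swap he (inc k v) hy, hcv]
    have h00 : w e (inc k v, y) (u0 k, 0) (u0 k, 0) = 0 := hw.alt e he _ y hy _
    have h11 : w e (inc k v, y) (u1 k, 0) (u1 k, 0) = 0 := hw.alt e he _ y hy _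
    set t0 : ℝ := w e (inc k v, y) (u0 k, 0) (Inc k m a) with ht0
    set t1 : ℝ := w e (inc k v, y) (u1 k, 0) (Inc k m a) with ht1
    have hs0 : w e (inc k v, y) (Inc k m a) (u0 k, 0) = -t0 := hw.swap he _ hy _ _
    have hs1 : w e (inc k v, y) (Inc k m a) (u1 k, 0) = -t1 := hw.swap he _ hy _ _
    set a' : V (k + 2) m := Inc k m a + (c⁻¹ * t1) • (u0 k, 0) - (c⁻¹ * t0) • (u1 k, 0) with ha'
    have hzero : a' = 0 := by
      refine hw.nondeg e he (inc k v) y hy a' fun b => ?_
      have hI : w e (inc k v, y) a' (Inc k m (Prj k m b)) = 0 := by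
        have h := ha (Prj k m b)
        rw [down_apply] at h
        have h' : Inc k m ((v, y) : V k m) = (inc k v, y) := rfl
        rw [h', ← ht0, ← ht1] at h
        rw [ha']
        simp only [map_add, map_sub, map_smul, add_apply, sub_apply, smul_apply, smul_eq_mul]
        linear_combination h
      have h0 : w e (inc k v, y) a' (u0 k, 0) = 0 := by
        rw [ha']
        simp only [map_add, map_sub, map_smul, add_apply, sub_apply, smul_apply, smul_eq_mul,
          hs0, h00, hcv']
        field_simp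
        ring
      have h1 : w e (inc k v, y) a' (u1 k, 0) = 0 := by
        rw [ha']
        simp only [map_add, map_sub, map_smul, add_apply, sub_apply, smul_apply, smul_eq_mul,
          hs1, h11, hcv]
        field_simp
        ring
      rw [decV b, map_add, map_add, map_smul, map_smul, h0, h1, hI]
      simp
    have hP : Prj k m a' = a := by
      rw [ha']
      simp only [map_add, map_sub, map_smul, Prj_Inc]
      simp [prj_u0, prj_u1]
    rw [← hP, hzero, map_zero]
  · intro e he v y hy z
    have h : w e (Inc k m (v + z, y)) = w e (Inc k m (v, y)) := by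
      have h := hi e he (inc k v) y hy (inc k z)
      simpa [Inc_apply] using h
    unfold down theta
    rw [h]

end Pool.Agent.W_9986fc_h48
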