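import Pool.Agent.W_9986fc_h48.Main

/-!
Definitions used in the statement for MP_9986fc_gt, `T^k`-invariant symplectic forms on `T^k × X`
(helper48).

`X` is a smooth manifold modelled on `ℝ^m`.  Fields of bilinear forms on `ℝ^k × X` are given by their
expressions in the charts `id × e`, `e` a chart of `X`.  Forms on `T^k × X` are the `ℤ^k`-periodic
forms on `ℝ^k × X`; forms on `X` are the forms on `ℝ^0 × X`.
-/

set_option autoImplicit false
set_option maxSynthPendingDepth 3

open scoped ContDiff Manifold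

namespace Pool.Agent.W_9986fc_h48.Forms

section Local

/-- Linear forms on `E`. -/
abbrev Lin (E : Type) [NormedAddCommGroup E] [NormedSpace ℝ E] : Type := E →L[ℝ] ℝ

/-- Bilinear forms on `E`. -/
abbrev Bil (E : Type) [NormedAddCommGroup E] [NormedSpace ℝ E] : Type := E →L[ℝ] E →L[ℝ] ℝ

variable {E : Type} [NormedAddCommGroup E] [NormedSpace ℝ E]

/-- The value `l a` of a linear form. -/
noncomputable def ev (l : Lin E) (a : E) : ℝ := l a

/-- The value `B (a, b)` of a bilinear form. -/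
noncomputable def val (B : Bil E) (a b : E) : ℝ := B a b

/-- The field of linear forms `α` is a smooth closed 1-form on `U`. -/
structure OneForm (α : E → Lin E) (U : Set E) : Prop where
  smooth : ∀ a, ContDiffOn ℝ ∞ (fun z => ev (α z) a) U
  closed : ∀ y ∈ U, ∀ a b, fderiv ℝ (fun z => ev (α z) b) y a = fderiv ℝ (fun z => ev (α z) a) y b

/-- The field of bilinear forms `f` is a smooth closed 2-form on `U`. -/
structure TwoForm (f : E → Bil E) (U : Set E) : Prop where
  smooth : ∀ a b, ContDiffOn ℝ ∞ (fun z => val (f z) a b) U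
  alt : ∀ y ∈ U, ∀ a, val (f y) a a = 0
  closed : ∀ y ∈ U, ∀ a b c,
    fderiv ℝ (fun z => val (f z) b c) y a + fderiv ℝ (fun z => val (f z) c a) y b +
      fderiv ℝ (fun z => val (f z) a b) y c = 0

variable [FiniteDimensional ℝ E]

theorem oneForm_iff {α : E → Lin E} {U : Set E} (hU : IsOpen U) : OneForm α U ↔
    ContDiffOn ℝ ∞ α U ∧ ∀ y ∈ U, ∀ a b, fderiv ℝ α y a b = fderiv ℝ α y b a := by
  have key : ∀ (_ : ContDiffOn ℝ ∞ α U) y (_ : y ∈ U) a b,
      fderiv ℝ (fun z => ev (α z) b) y a = fderiv ℝ α y a b := by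
    intro h y hy a b
    have h1 : DifferentiableAt ℝ α y :=
      (h.contDiffAt (hU.mem_nhds hy)).differentiableAt (by simp)
    have h2 := (h1.hasFDerivAt.clm_apply (hasFDerivAt_const b y)).fderiv
    show fderiv ℝ (fun z => α z b) y a = _
    rw [h2]
    simp
  constructor
  · rintro ⟨h1, h2⟩
    have h3 : ContDiffOn ℝ ∞ α U := contDiffOn_clm_apply.2 h1
    refine ⟨h3, fun y hy a b => ?_⟩
    rw [← key h3 y hy, ← key h3 y hy]
    exact h2 y hy a b
  · rintro ⟨h1, h2⟩
    refine ⟨contDiffOn_clm_apply.1 h1, fun y hy a b => ?_⟩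
    rw [key h1 y hy, key h1 y hy]
    exact h2 y hy a b

theorem twoForm_iff {f : E → Bil E} {U : Set E} (hU : IsOpen U) : TwoForm f U ↔
    ContDiffOn ℝ ∞ f U ∧ (∀ y ∈ U, ∀ a, f y a a = 0) ∧ ∀ y ∈ U, ∀ a b c,
      fderiv ℝ f y a b c + fderiv ℝ f y b c a + fderiv ℝ f y c a b = 0 := by
  have key : ∀ (_ : ContDiffOn ℝ ∞ f U) y (_ : y ∈ U) a b c,
      fderiv ℝ (fun z => val (f z) b c) y a = fderiv ℝ f y a b c := by
    intro h y hy a b c
    have h1 : DifferentiableAt ℝ f y :=
      (h.contDiffAt (hU.mem_nhds hy)).differentiableAt (by simp)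
    exact (fderiv_apply_apply h1 a b c).symm
  constructor
  · rintro ⟨h1, h2, h3⟩
    have h4 : ContDiffOn ℝ ∞ f U :=
      contDiffOn_clm_apply.2 fun a => contDiffOn_clm_apply.2 fun b => h1 a b
    refine ⟨h4, h2, fun y hy a b c => ?_⟩
    rw [← key h4 y hy, ← key h4 y hy, ← key h4 y hy]
    exact h3 y hy a b c
  · rintro ⟨h1, h2, h3⟩
    refine ⟨fun a b => contDiffOn_clm_apply.1 (contDiffOn_clm_apply.1 h1 a) b, h2,
      fun y hy a b c => ?_⟩
    rw [key h1 y hy, key h1 y hy, key h1 y hy]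
    exact h3 y hy a b c

end Local

/-- The vector space `ℝ^n`. -/
abbrev R (n : ℕ) : Type := Fin n → ℝ

/-- The vector space `ℝ^k × ℝ^m`. -/
abbrev V (k m : ℕ) : Type := R k × R m

variable {m : ℕ} {X : Type} [TopologicalSpace X]

/-- The differential at `e x` of the change of charts from `e` to `e'`, applied to `a`. -/
noncomputable def chg (e e' : OpenPartialHomeomorph X (R m)) (x : X) (a : R m) : R m :=
  fderiv ℝ (e' ∘ e.symm) (e x) a

/-- Families of fields of linear forms on `ℝ^m`, one for each chart of `X`. -/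
abbrev Fam1 (m : ℕ) (X : Type) [TopologicalSpace X] : Type :=
  OpenPartialHomeomorph X (R m) → R m → Lin (R m)

/-- Families of fields of bilinear forms on `ℝ^k × ℝ^m`, one for each chart of `X`. -/
abbrev Fam2 (k m : ℕ) (X : Type) [TopologicalSpace X] : Type :=
  OpenPartialHomeomorph X (R m) → V k m → Bil (V k m)

variable [ChartedSpace (R m) X]

/-- The family `w e`, `e` a chart of `X`, of fields of bilinear forms on `ℝ^k × e.target` is a smooth
closed 2-form on `ℝ^k × X`. -/
structure ClosedForm (k : ℕ) (w : Fam2 k m X) : Prop where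
  two : ∀ e ∈ atlas (R m) X, TwoForm (w e) (Set.univ ×ˢ e.target)
  compat : ∀ e ∈ atlas (R m) X, ∀ e' ∈ atlas (R m) X, ∀ v, ∀ x ∈ e.source, x ∈ e'.source →
    ∀ a b, val (w e (v, e x)) a b =
      val (w e' (v, e' x)) (a.1, chg e e' x a.2) (b.1, chg e e' x b.2)

/-- The form `w` is a symplectic form on `ℝ^k × X`: closed and nondegenerate. -/
structure Symplectic (k : ℕ) (w : Fam2 k m X) : Prop where
  form : ClosedForm k w
  nondeg : ∀ e ∈ atlas (R m) X, ∀ v, ∀ y ∈ e.target, ∀ a, (∀ b, val (w e (v, y)) a b = 0) → a = 0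

/-- `ℤ^k`-periodic: the form lives on `T^k × X`. -/
def Periodic (k : ℕ) (w : Fam2 k m X) : Prop :=
  ∀ e ∈ atlas (R m) X, ∀ v, ∀ y ∈ e.target, ∀ z : Fin k → ℤ,
    w e (v + fun i => (z i : ℝ), y) = w e (v, y)

/-- `ℝ^k`-invariant: the form lives on `T^k × X` and is `T^k`-invariant. -/
def Invariant (k : ℕ) (w : Fam2 k m X) : Prop :=
  ∀ e ∈ atlas (R m) X, ∀ v, ∀ y ∈ e.target, ∀ z : R k, w e (v + z, y) = w e (v, y)

/-- The form `w` tames a `T^k`-invariant field of endomorphisms: for every point of `X` there is an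
endomorphism `A` of the tangent space of `ℝ^k × X` with `w (a, A a) > 0` for all `a ≠ 0`, along the
whole orbit of the point (for example `A = J` for a `T^k`-invariant almost complex structure `J`
tamed by `w`). -/
def TamesInvariant (k : ℕ) (w : Fam2 k m X) : Prop :=
  ∀ e ∈ atlas (R m) X, ∀ y ∈ e.target, ∃ A : V k m →ₗ[ℝ] V k m,
    ∀ v, ∀ a, a ≠ 0 → 0 < val (w e (v, y)) a (A a)

/-- The family `α e`, `e` a chart of `X`, is a smooth closed 1-form on `X`. -/
structure ClosedOneForm (α : Fam1 m X) : Prop where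
  one : ∀ e ∈ atlas (R m) X, OneForm (α e) e.target
  compat : ∀ e ∈ atlas (R m) X, ∀ e' ∈ atlas (R m) X, ∀ x ∈ e.source, x ∈ e'.source →
    ∀ a, ev (α e (e x)) a = ev (α e' (e' x)) (chg e e' x a)

/-- The closed 1-form `α` and the closed 2-form `g` on `X` are a cosymplectic structure: at every
point `α ≠ 0` and `g` is nondegenerate on the kernel of `α` (that is, `α ∧ g ^ r` has no zero,
`dim X = 2 r + 1`). -/
structure Cosymplectic (α : Fam1 m X) (g : Fam2 0 m X) : Prop where
  one : ClosedOneForm α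
  two : ClosedForm 0 g
  ne_zero : ∀ e ∈ atlas (R m) X, ∀ y ∈ e.target, ∃ a, ev (α e y) a ≠ 0
  nondeg : ∀ e ∈ atlas (R m) X, ∀ v, ∀ y ∈ e.target, ∀ a, ev (α e y) a.2 = 0 →
    (∀ b, ev (α e y) b.2 = 0 → val (g e (v, y)) a b = 0) → a = 0

section Conv

variable {k : ℕ} {w : Fam2 k m X} {α : Fam1 m X} {g : Fam2 0 m X}

theorem closedForm_iff : ClosedForm k w ↔ W_9986fc_h48.ClosedForm k w := by
  have key : ∀ e : OpenPartialHomeomorph X (R m), TwoForm (w e) (Set.univ ×ˢ e.target) ↔ _ :=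
    fun e => twoForm_iff (isOpen_univ.prod e.open_target)
  constructor
  · rintro ⟨h1, h2⟩
    refine ⟨fun e he => ((key e).1 (h1 e he)).1, fun e he v y hy a => ?_, h2,
      fun e he v y hy a b c => ?_⟩
    · exact ((key e).1 (h1 e he)).2.1 (v, y) ⟨trivial, hy⟩ a
    · exact ((key e).1 (h1 e he)).2.2 (v, y) ⟨trivial, hy⟩ a b c
  · rintro ⟨h1, h2, h3, h4⟩
    refine ⟨fun e he => (key e).2 ⟨h1 e he, ?_, ?_⟩, h3⟩
    · exact fun p hp a => h2 e he p.1 p.2 hp.2 a
    · exact fun p hp a b c => h4 e he p.1 p.2 hp.2 a b c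

theorem symplectic_iff : Symplectic k w ↔ W_9986fc_h48.Symplectic k w :=
  ⟨fun h => ⟨closedForm_iff.1 h.1, h.2⟩, fun h => ⟨closedForm_iff.2 h.1, h.2⟩⟩

theorem periodic_iff : Periodic k w ↔ W_9986fc_h48.Periodic k w := Iff.rfl

theorem invariant_iff : Invariant k w ↔ W_9986fc_h48.Invariant k w := Iff.rfl

theorem tamesInvariant_iff : TamesInvariant k w ↔ W_9986fc_h48.TamesInvariant k w := Iff.rfl

theorem closedOneForm_iff : ClosedOneForm α ↔ W_9986fc_h48.ClosedOneForm α := by
  constructor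
  · rintro ⟨h1, h2⟩
    exact ⟨fun e he => ((oneForm_iff e.open_target).1 (h1 e he)).1, h2,
      fun e he => ((oneForm_iff e.open_target).1 (h1 e he)).2⟩
  · rintro ⟨h1, h2, h3⟩
    exact ⟨fun e he => (oneForm_iff e.open_target).2 ⟨h1 e he, h3 e he⟩, h2⟩

theorem ne_zero_iff (l : Lin (R m)) : (∃ a, ev l a ≠ 0) ↔ l ≠ 0 := by
  constructor
  · rintro ⟨a, ha⟩ rfl
    exact ha rfl
  · intro h
    by_contra h1
    push Not at h1
    exact h (ContinuousLinearMap.ext h1)

theorem cosymplectic_iff : Cosymplectic α g ↔ W_9986fc_h48.Cosymplectic α g :=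
  ⟨fun h => ⟨closedOneForm_iff.1 h.1, closedForm_iff.1 h.2,
      fun e he y hy => (ne_zero_iff _).1 (h.3 e he y hy), h.4⟩,
    fun h => ⟨closedOneForm_iff.2 h.1, closedForm_iff.2 h.2,
      fun e he y hy => (ne_zero_iff _).2 (h.3 e he y hy), h.4⟩⟩

end Conv

end Pool.Agent.W_9986fc_h48.Forms
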