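import Pool.Agent.W_9986fc_h48.Basic

set_option autoImplicit false
set_option maxSynthPendingDepth 3

open scoped ContDiff Manifold Topology

namespace Pool.Agent.W_9986fc_h48

section Pull

variable {E F : Type*} [NormedAddCommGroup E] [NormedSpace ℝ E] [NormedAddCommGroup F]
  [NormedSpace ℝ F]

/-- Pullback of bilinear forms along a linear map. -/
noncomputable def pullL (P : E →L[ℝ] F) : (F →L[ℝ] F →L[ℝ] ℝ) →L[ℝ] (E →L[ℝ] E →L[ℝ] ℝ) :=
  ((ContinuousLinearMap.compL ℝ E F (E →L[ℝ] ℝ)).flip P).comp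
    ((ContinuousLinearMap.compL ℝ F (F →L[ℝ] ℝ) (E →L[ℝ] ℝ))
      ((ContinuousLinearMap.compL ℝ E F ℝ).flip P))

@[simp] theorem pullL_apply (P : E →L[ℝ] F) (B : F →L[ℝ] F →L[ℝ] ℝ) (a b : E) :
    pullL P B a b = B (P a) (P b) := by
  simp [pullL]

theorem fderiv_apply_apply {G : Type*} [NormedAddCommGroup G] [NormedSpace ℝ G]
    {f : G → E →L[ℝ] F →L[ℝ] ℝ} {p : G} (hf : DifferentiableAt ℝ f p) (a : G) (b : E) (c : F) :
    fderiv ℝ f p a b c = fderiv ℝ (fun q => f q b c) p a := by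
  have h := (hf.hasFDerivAt.clm_apply (hasFDerivAt_const b p)).clm_apply (hasFDerivAt_const c p)
  rw [h.fderiv]
  simp

end Pull

section Fin

variable {k : ℕ}

/-- `ℝ^k → ℝ^(k+2)`, the last coordinates. -/
noncomputable def inc (k : ℕ) : R k →L[ℝ] R (k + 2) :=
  ContinuousLinearMap.pi (fun j : Fin (k + 2) =>
    Fin.cases (motive := fun _ => R k →L[ℝ] ℝ) 0 (fun j' : Fin (k + 1) =>
      Fin.cases (motive := fun _ => R k →L[ℝ] ℝ) 0 (fun i : Fin k => ContinuousLinearMap.proj i) j')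
      j)

/-- `ℝ^(k+2) → ℝ^k`, the last coordinates. -/
noncomputable def prj (k : ℕ) : R (k + 2) →L[ℝ] R k :=
  ContinuousLinearMap.pi (fun i : Fin k => ContinuousLinearMap.proj i.succ.succ)

theorem inc_zero (r : R k) : inc k r 0 = 0 := rfl
theorem inc_one (r : R k) : inc k r 1 = 0 := rfl
theorem inc_succ (r : R k) (i : Fin k) : inc k r i.succ.succ = r i := rfl
theorem prj_apply (r : R (k + 2)) (i : Fin k) : prj k r i = r i.succ.succ := rfl

theorem prj_inc (r : R k) : prj k (inc k r) = r := by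
  funext i
  rfl

/-- first unit vector -/
def u0 (k : ℕ) : R (k + 2) := Pi.single 0 1
/-- second unit vector -/
def u1 (k : ℕ) : R (k + 2) := Pi.single 1 1

theorem prj_u0 : prj k (u0 k) = 0 := by
  funext i
  simp [prj_apply, u0]

theorem prj_u1 : prj k (u1 k) = 0 := by
  funext i
  have h : i.succ.succ ≠ (1 : Fin (k + 2)) := by
    intro h
    have := congrArg Fin.val h
    simp at this
  simp [prj_apply, u1, h]

theorem dec (r : R (k + 2)) : r = r 0 • u0 k + r 1 • u1 k + inc k (prj k r) := by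
  funext j
  refine Fin.cases ?_ (fun j' => Fin.cases ?_ (fun i => ?_) j') j
  · simp [u0, u1, inc_zero]
  · have h : (Fin.succ 0 : Fin (k + 2)) = 1 := rfl
    rw [h]
    simp [u0, u1, inc_one]
  · have h : i.succ.succ ≠ (1 : Fin (k + 2)) := by
      intro h
      have := congrArg Fin.val h
      simp at this
    simp [u0, u1, h, inc_succ, prj_apply]

/-- The inclusion `ℝ^k × ℝ^m → ℝ^(k+2) × ℝ^m`. -/
noncomputable def Inc (k m : ℕ) : V k m →L[ℝ] V (k + 2) m :=
  (inc k).prodMap (ContinuousLinearMap.id ℝ (R m))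

/-- The projection `ℝ^(k+2) × ℝ^m → ℝ^k × ℝ^m`. -/
noncomputable def Prj (k m : ℕ) : V (k + 2) m →L[ℝ] V k m :=
  (prj k).prodMap (ContinuousLinearMap.id ℝ (R m))

variable {m : ℕ}

@[simp] theorem Inc_apply (a : V k m) : Inc k m a = (inc k a.1, a.2) := rfl
@[simp] theorem Prj_apply (a : V (k + 2) m) : Prj k m a = (prj k a.1, a.2) := rfl

theorem Prj_Inc (a : V k m) : Prj k m (Inc k m a) = a := by
  simp [prj_inc]

theorem decV (a : V (k + 2) m) :
    a = a.1 0 • ((u0 k, 0) : V (k + 2) m) + a.1 1 • ((u1 k, 0) : V (k + 2) m) +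
      Inc k m (Prj k m a) := by
  refine Prod.ext ?_ ?_
  · simpa using dec a.1
  · simp

/-- The form `dv_0 ∧ dv_1` on `ℝ^(k+2) × ℝ^m`. -/
noncomputable def area (k m : ℕ) : V (k + 2) m →L[ℝ] V (k + 2) m →L[ℝ] ℝ :=
  (((ContinuousLinearMap.proj 0).comp (ContinuousLinearMap.fst ℝ (R (k + 2)) (R m))).smulRight
    ((ContinuousLinearMap.proj 1).comp (ContinuousLinearMap.fst ℝ (R (k + 2)) (R m)))) -
  (((ContinuousLinearMap.proj 1).comp (ContinuousLinearMap.fst ℝ (R (k + 2)) (R m))).smulRight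
    ((ContinuousLinearMap.proj 0).comp (ContinuousLinearMap.fst ℝ (R (k + 2)) (R m))))

@[simp] theorem area_apply (a b : V (k + 2) m) :
    area k m a b = a.1 0 * b.1 1 - a.1 1 * b.1 0 := by
  simp [area]

end Fin

end Pool.Agent.W_9986fc_h48
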