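import Pool.Agent.W_9986fc_h48.Lin

set_option autoImplicit false
set_option maxSynthPendingDepth 3

open scoped ContDiff Manifold Topology

namespace Pool.Agent.W_9986fc_h48

variable {m : ℕ} {X : Type} [TopologicalSpace X] [ChartedSpace (R m) X]

/-- `ℝ^0 × ℝ^m → ℝ^1 × ℝ^m`. -/
noncomputable def J0 (m : ℕ) : V 0 m →L[ℝ] V 1 m :=
  (0 : R 0 →L[ℝ] R 1).prodMap (ContinuousLinearMap.id ℝ (R m))

/-- `ℝ^1 × ℝ^m → ℝ^0 × ℝ^m`. -/
noncomputable def J1 (m : ℕ) : V 1 m →L[ℝ] V 0 m :=
  (0 : R 1 →L[ℝ] R 0).prodMap (ContinuousLinearMap.id ℝ (R m))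

@[simp] theorem J0_apply (a : V 0 m) : J0 m a = (0, a.2) := rfl
@[simp] theorem J1_apply (a : V 1 m) : J1 m a = (0, a.2) := rfl

section FromForm

variable {w : OpenPartialHomeomorph X (R m) → V 1 m → V 1 m →L[ℝ] V 1 m →L[ℝ] ℝ}

/-- The 1-form `w (∂_t, ·)`. -/
noncomputable def alphaOf
    (w : OpenPartialHomeomorph X (R m) → V 1 m → V 1 m →L[ℝ] V 1 m →L[ℝ] ℝ)
    (e : OpenPartialHomeomorph X (R m)) (y : R m) : R m →L[ℝ] ℝ :=
  (w e (0, y) (1, 0)).comp (ContinuousLinearMap.inr ℝ (R 1) (R m))

/-- The restriction of `w` to `X`. -/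
noncomputable def gOf
    (w : OpenPartialHomeomorph X (R m) → V 1 m → V 1 m →L[ℝ] V 1 m →L[ℝ] ℝ)
    (e : OpenPartialHomeomorph X (R m)) (p : V 0 m) : V 0 m →L[ℝ] V 0 m →L[ℝ] ℝ :=
  pullL (J0 m) (w e (J0 m p))

omit [ChartedSpace (R m) X] in
theorem alphaOf_apply (e : OpenPartialHomeomorph X (R m)) (y a : R m) :
    alphaOf w e y a = w e (0, y) (1, 0) (0, a) := rfl

omit [ChartedSpace (R m) X] in
theorem gOf_apply (e : OpenPartialHomeomorph X (R m)) (p a b : V 0 m) :
    gOf w e p a b = w e (0, p.2) (0, a.2) (0, b.2) := by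
  simp [gOf]

theorem cosymplectic_of (hw : Symplectic 1 w) (hi : Invariant 1 w) :
    Cosymplectic (alphaOf w) (gOf w) := by
  have hd1 : ∀ e ∈ atlas (R m) X, ∀ y ∈ e.target, ∀ a b,
      fderiv ℝ (alphaOf w e) y a b = fderiv ℝ (w e) (0, y) (0, a) (1, 0) (0, b) := by
    intro e he y hy a b
    have h1 := hw.hasFDerivAt he 0 hy
    have h2 : HasFDerivAt (fun y : R m => w e (0, y))
        ((fderiv ℝ (w e) (0, y)).comp (ContinuousLinearMap.inr ℝ (R 1) (R m))) y :=
      HasFDerivAt.comp (g := w e) y h1 (hasFDerivAt_prodMk_right (𝕜 := ℝ) (0 : R 1) y)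
    have h3 := (h2.clm_apply (hasFDerivAt_const (((1 : R 1), (0 : R m)) : V 1 m) y)).clm_comp
      (hasFDerivAt_const (ContinuousLinearMap.inr ℝ (R 1) (R m)) y)
    have h4 : fderiv ℝ (alphaOf w e) y = _ := h3.fderiv
    rw [h4]
    simp
  refine ⟨⟨?_, ?_, ?_⟩, ⟨?_, ?_, ?_, ?_⟩, ?_, ?_⟩
  · intro e he
    have h1 : ContDiffOn ℝ ∞ (fun y : R m => w e (0, y)) e.target :=
      (hw.smooth e he).comp (contDiff_prodMk_right (0 : R 1)).contDiffOn
        (fun y hy => ⟨trivial, hy⟩)
    exact (h1.clm_apply contDiffOn_const).clm_comp contDiffOn_const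
  · intro e he e' he' x hx hx' a
    have h := hw.compat e he e' he' 0 x hx hx' (1, 0) (0, a)
    simpa [alphaOf_apply] using h
  · intro e he y hy a b
    rw [hd1 e he y hy, hd1 e he y hy]
    exact hi.fderiv_one hw.toClosedForm he 0 hy 1 (0, a) (0, b)
  · intro e he
    have h1 : Set.MapsTo (J0 m) (Set.univ ×ˢ e.target) (Set.univ ×ˢ e.target) :=
      fun p hp => ⟨trivial, hp.2⟩
    have h2 := (hw.smooth e he).comp (J0 m).contDiff.contDiffOn h1
    exact (pullL (J0 m)).contDiff.comp_contDiffOn h2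
  · intro e he v y hy a
    rw [gOf_apply]
    exact hw.alt e he 0 y hy _
  · intro e he e' he' v x hx hx' a b
    rw [gOf_apply, gOf_apply]
    have h := hw.compat e he e' he' 0 x hx hx' (0, a.2) (0, b.2)
    simpa using h
  · intro e he v y hy a b c
    have h1 : HasFDerivAt (gOf w e) ((pullL (J0 m)).comp
        ((fderiv ℝ (w e) (0, y)).comp (J0 m))) (v, y) := by
      have h2 := (hw.hasFDerivAt he 0 hy)
      have h3 : HasFDerivAt (fun p => w e (J0 m p))
          ((fderiv ℝ (w e) (0, y)).comp (J0 m)) (v, y) :=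
        HasFDerivAt.comp (g := w e) (f := J0 m) (v, y) h2 (J0 m).hasFDerivAt
      exact (pullL (J0 m)).hasFDerivAt.comp (v, y) h3
    rw [h1.fderiv]
    have h5 := hw.closed e he 0 y hy (0, a.2) (0, b.2) (0, c.2)
    simpa using h5
  · intro e he y hy h0
    have h1 : (((1 : R 1), (0 : R m)) : V 1 m) = 0 := by
      refine hw.nondeg e he 0 y hy _ fun b => ?_
      have h2 : b = (b.1 0) • ((1, 0) : V 1 m) + (0, b.2) := by
        refine Prod.ext ?_ ?_
        · funext i
          have : i = 0 := Subsingleton.elim _ _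
          subst this
          simp
        · simp
      rw [h2, map_add, map_smul, hw.alt e he 0 y hy, ← alphaOf_apply, h0]
      simp
    have h3 := congrFun (congrArg Prod.fst h1) 0
    simp at h3
  · intro e he v y hy a ha hb
    have hne : ∃ u, alphaOf w e y u = 1 := by
      by_contra hcon
      push Not at hcon
      have h0 : alphaOf w e y = 0 := by
        refine ContinuousLinearMap.ext fun u => ?_
        by_contra hu
        have hu' : alphaOf w e y u ≠ 0 := hu
        refine hcon ((alphaOf w e y u)⁻¹ • u) ?_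
        rw [map_smul, smul_eq_mul, inv_mul_cancel₀ hu']
      have h1 : (((1 : R 1), (0 : R m)) : V 1 m) = 0 := by
        refine hw.nondeg e he 0 y hy _ fun b => ?_
        have h2 : b = (b.1 0) • ((1, 0) : V 1 m) + (0, b.2) := by
          refine Prod.ext ?_ ?_
          · funext i
            have : i = 0 := Subsingleton.elim _ _
            subst this
            simp
          · simp
        rw [h2, map_add, map_smul, hw.alt e he 0 y hy, ← alphaOf_apply, h0]
        simp
      have h3 := congrFun (congrArg Prod.fst h1) 0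
      simp at h3
    obtain ⟨u, hu⟩ := hne
    set l : ℝ := w e (0, y) (0, a.2) (0, u) with hl
    have hg : ∀ b : R m, w e (0, y) (0, a.2) (0, b) = l * w e (0, y) (1, 0) (0, b) := by
      intro b
      have h1 : alphaOf w e y (b - alphaOf w e y b • u) = 0 := by
        rw [map_sub, map_smul, hu]
        simp
      have h2 := hb (0, b - alphaOf w e y b • u) h1
      rw [gOf_apply] at h2
      have h3 : (((0 : R 1), b - alphaOf w e y b • u) : V 1 m) =
          (0, b) - alphaOf w e y b • (0, u) := by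
        refine Prod.ext ?_ ?_ <;> simp
      simp only at h2
      rw [h3, map_sub, map_smul, ← hl, alphaOf_apply, smul_eq_mul] at h2
      linarith
    have h4 : (-l) • (((1 : R 1), (0 : R m)) : V 1 m) + (0, a.2) = 0 := by
      refine hw.nondeg e he 0 y hy _ fun b => ?_
      have h2 : b = (b.1 0) • ((1, 0) : V 1 m) + (0, b.2) := by
        refine Prod.ext ?_ ?_
        · funext i
          have : i = 0 := Subsingleton.elim _ _
          subst this
          simp
        · simp
      have h5 : w e (0, y) (0, a.2) (1, 0) = 0 := by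
        rw [hw.swap he 0 hy, ← alphaOf_apply, ha, neg_zero]
      have h6 : w e (0, y) ((1 : R 1), (0 : R m)) (1, 0) = 0 := hw.alt e he 0 y hy _
      rw [h2]
      simp only [map_add, map_smul, add_apply, smul_apply, smul_eq_mul, h5, h6, hg b.2]
      ring
    have h7 := congrArg Prod.snd h4
    refine Prod.ext (Subsingleton.elim _ _) ?_
    simpa using h7

end FromForm

end Pool.Agent.W_9986fc_h48
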