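import Pool.Agent.W_9986fc_h48.One

set_option autoImplicit false
set_option maxSynthPendingDepth 3

open scoped ContDiff Manifold Topology

namespace Pool.Agent.W_9986fc_h48

variable {m : ℕ} {X : Type} [TopologicalSpace X] [ChartedSpace (R m) X]
  {α : OpenPartialHomeomorph X (R m) → R m → R m →L[ℝ] ℝ}
  {g : OpenPartialHomeomorph X (R m) → V 0 m → V 0 m →L[ℝ] V 0 m →L[ℝ] ℝ}

/-- The coordinate of `ℝ^1`. -/
noncomputable def tau (m : ℕ) : V 1 m →L[ℝ] ℝ :=
  (ContinuousLinearMap.proj 0).comp (ContinuousLinearMap.fst ℝ (R 1) (R m))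

@[simp] theorem tau_apply (a : V 1 m) : tau m a = a.1 0 := rfl

/-- `α` as a 1-form on `ℝ^1 × X`. -/
noncomputable def alphaV (α : OpenPartialHomeomorph X (R m) → R m → R m →L[ℝ] ℝ)
    (e : OpenPartialHomeomorph X (R m)) (p : V 1 m) : V 1 m →L[ℝ] ℝ :=
  (α e p.2).comp (ContinuousLinearMap.snd ℝ (R 1) (R m))

/-- The form `dt ∧ α + g`. -/
noncomputable def cosForm (α : OpenPartialHomeomorph X (R m) → R m → R m →L[ℝ] ℝ)
    (g : OpenPartialHomeomorph X (R m) → V 0 m → V 0 m →L[ℝ] V 0 m →L[ℝ] ℝ)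
    (e : OpenPartialHomeomorph X (R m)) (p : V 1 m) : V 1 m →L[ℝ] V 1 m →L[ℝ] ℝ :=
  ((tau m).smulRight (alphaV α e p) - (alphaV α e p).smulRight (tau m)) +
    pullL (J1 m) (g e (J1 m p))

omit [ChartedSpace (R m) X] in
theorem cosForm_apply (e : OpenPartialHomeomorph X (R m)) (p a b : V 1 m) :
    cosForm α g e p a b = a.1 0 * α e p.2 b.2 - α e p.2 a.2 * b.1 0 +
      g e (0, p.2) (0, a.2) (0, b.2) := by
  simp [cosForm, alphaV]

theorem symplectic_of_cos (h : Cosymplectic α g) :
    Symplectic 1 (cosForm α g) ∧ Invariant 1 (cosForm α g) := by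
  have hv0 : ∀ v : R 0, v = 0 := fun v => Subsingleton.elim _ _
  have hαc : ∀ e ∈ atlas (R m) X, ContDiffOn ℝ ∞ (alphaV α e) (Set.univ ×ˢ e.target) := by
    intro e he
    have h1 : ContDiffOn ℝ ∞ (fun p : V 1 m => α e p.2) (Set.univ ×ˢ e.target) :=
      (h.one.smooth e he).comp contDiff_snd.contDiffOn (fun p hp => hp.2)
    exact h1.clm_comp contDiffOn_const
  have hsmooth : ∀ e ∈ atlas (R m) X,
      ContDiffOn ℝ ∞ (cosForm α g e) (Set.univ ×ˢ e.target) := by
    intro e he
    have h1 : Set.MapsTo (J1 m) (Set.univ ×ˢ e.target) (Set.univ ×ˢ e.target) :=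
      fun p hp => ⟨trivial, hp.2⟩
    have h2 := (h.two.smooth e he).comp (J1 m).contDiff.contDiffOn h1
    exact (((contDiffOn_const (c := tau m)).smulRight (hαc e he)).sub
      ((hαc e he).smulRight (contDiffOn_const (c := tau m)))).add
      ((pullL (J1 m)).contDiff.comp_contDiffOn h2)
  refine ⟨⟨⟨hsmooth, ?_, ?_, ?_⟩, ?_⟩, ?_⟩
  · intro e he v y hy a
    rw [cosForm_apply, h.two.alt e he 0 y hy]
    ring
  · intro e he e' he' v x hx hx' a b
    rw [cosForm_apply, cosForm_apply]
    have h1 := h.one.compat e he e' he' x hx hx' a.2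
    have h2 := h.one.compat e he e' he' x hx hx' b.2
    have h3 := h.two.compat e he e' he' 0 x hx hx' (0, a.2) (0, b.2)
    simp only at h1 h2 h3 ⊢
    rw [h1, h2, h3]
  · intro e he v y hy a b c
    have hmem : Set.univ ×ˢ e.target ∈ 𝓝 ((v, y) : V 1 m) :=
      (isOpen_univ.prod e.open_target).mem_nhds ⟨trivial, hy⟩
    have hdiff : DifferentiableAt ℝ (cosForm α g e) (v, y) :=
      ((hsmooth e he).contDiffAt hmem).differentiableAt (by simp)
    have hα : HasFDerivAt (α e) (fderiv ℝ (α e) y) y :=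
      (((h.one.smooth e he).contDiffAt (e.open_target.mem_nhds hy)).differentiableAt
        (by simp)).hasFDerivAt
    have hα1 : ∀ x : R m, HasFDerivAt (fun q : V 1 m => α e q.2 x)
        (((fderiv ℝ (α e) y).flip x).comp (ContinuousLinearMap.snd ℝ (R 1) (R m))) (v, y) := by
      intro x
      have h1 : HasFDerivAt (fun q : V 1 m => α e q.2)
          ((fderiv ℝ (α e) y).comp (ContinuousLinearMap.snd ℝ (R 1) (R m))) (v, y) :=
        HasFDerivAt.comp (g := α e) ((v, y) : V 1 m) hα hasFDerivAt_snd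
      refine (h1.clm_apply (hasFDerivAt_const x ((v, y) : V 1 m))).congr_fderiv ?_
      ext a <;> simp
    have hg1 : ∀ x z : V 0 m, HasFDerivAt (fun q : V 1 m => g e (0, q.2) x z)
        ((((fderiv ℝ (g e) (0, y)).flip x).flip z).comp (J1 m)) (v, y) := by
      intro x z
      have h1 := h.two.hasFDerivAt_apply he 0 hy x z
      exact HasFDerivAt.comp (g := fun p => g e p x z) (f := J1 m) (v, y) h1 (J1 m).hasFDerivAt
    have key : ∀ a b c : V 1 m, fderiv ℝ (cosForm α g e) (v, y) a b c =
        b.1 0 * fderiv ℝ (α e) y a.2 c.2 - fderiv ℝ (α e) y a.2 b.2 * c.1 0 +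
          fderiv ℝ (g e) (0, y) (0, a.2) (0, b.2) (0, c.2) := by
      intro a b c
      rw [fderiv_apply_apply hdiff]
      have h1 := (((hα1 c.2).const_mul (b.1 0)).sub ((hα1 b.2).mul_const (c.1 0))).add
        (hg1 (0, b.2) (0, c.2))
      have h2 : (fun q => cosForm α g e q b c) = fun q : V 1 m =>
          b.1 0 * α e q.2 c.2 - α e q.2 b.2 * c.1 0 + g e (0, q.2) (0, b.2) (0, c.2) := by
        funext q
        exact cosForm_apply e q b c
      rw [h2]
      refine (DFunLike.congr_fun h1.fderiv a).trans ?_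
      simp only [add_apply, sub_apply, smul_apply, ContinuousLinearMap.comp_apply,
        ContinuousLinearMap.flip_apply, smul_eq_mul, ContinuousLinearMap.coe_snd', J1_apply]
      ring
    have s := h.one.closed e he y hy
    have hcl := h.two.closed e he 0 y hy (0, a.2) (0, b.2) (0, c.2)
    rw [key, key, key, s b.2 a.2, s c.2 a.2, s c.2 b.2]
    linear_combination hcl
  · intro e he v y hy a ha
    have h1 := ha (1, 0)
    rw [cosForm_apply] at h1
    have hz : ((0 : R 0), (0 : R m)) = 0 := rfl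
    simp only [hz, map_zero, mul_zero, Pi.one_apply, mul_one, zero_sub, add_zero,
      neg_eq_zero] at h1
    have h2 : ((0, a.2) : V 0 m) = 0 := by
      refine h.nondeg e he 0 y hy _ h1 fun b hb => ?_
      have h3 := ha (0, b.2)
      rw [cosForm_apply] at h3
      simp only at h3
      rw [hb, h1] at h3
      have h4 : b = (0, b.2) := Prod.ext (Subsingleton.elim _ _) rfl
      rw [h4]
      simpa using h3
    have h3 : a.2 = 0 := congrArg Prod.snd h2
    have h4 : a.1 0 = 0 := by
      by_contra h5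
      refine h.ne_zero e he y hy (ContinuousLinearMap.ext fun u => ?_)
      have h6 := ha (0, u)
      rw [cosForm_apply] at h6
      simp only [h3, hz, map_zero, zero_apply, zero_mul, sub_zero, add_zero] at h6
      rcases mul_eq_zero.1 h6 with h7 | h7
      · exact absurd h7 h5
      · exact h7
    refine Prod.ext (funext fun i => ?_) h3
    have : i = 0 := Subsingleton.elim _ _
    subst this
    exact h4
  · intro e he v y hy z
    rfl

end Pool.Agent.W_9986fc_h48
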