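import Pool.Agent.W_9986fc_h48.Const

set_option autoImplicit false
set_option maxSynthPendingDepth 3

open scoped ContDiff Manifold Topology

namespace Pool.Agent.W_9986fc_h48

variable {m : ℕ} {X : Type} [TopologicalSpace X] [ChartedSpace (R m) X] {k : ℕ}
  {w : OpenPartialHomeomorph X (R m) → V (k + 2) m → V (k + 2) m →L[ℝ] V (k + 2) m →L[ℝ] ℝ}

/-- `w + s dv_0 ∧ dv_1`. -/
noncomputable def pert
    (w : OpenPartialHomeomorph X (R m) → V (k + 2) m → V (k + 2) m →L[ℝ] V (k + 2) m →L[ℝ] ℝ)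
    (s : ℝ) (e : OpenPartialHomeomorph X (R m)) (p : V (k + 2) m) :
    V (k + 2) m →L[ℝ] V (k + 2) m →L[ℝ] ℝ :=
  w e p + s • area k m

omit [ChartedSpace (R m) X] in
theorem pert_apply (s : ℝ) (e : OpenPartialHomeomorph X (R m)) (p a b : V (k + 2) m) :
    pert w s e p a b = w e p a b + s * (a.1 0 * b.1 1 - a.1 1 * b.1 0) := by
  simp [pert]

theorem pert_closed (hw : ClosedForm (k + 2) w) (s : ℝ) : ClosedForm (k + 2) (pert w s) := by
  refine ⟨?_, ?_, ?_, ?_⟩
  · intro e he
    exact (hw.smooth e he).add contDiffOn_const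
  · intro e he v y hy a
    rw [pert_apply, hw.alt e he v y hy a]
    ring
  · intro e he e' he' v x hx hx' a b
    rw [pert_apply, pert_apply, hw.compat e he e' he' v x hx hx']
  · intro e he v y hy a b c
    have h1 : fderiv ℝ (pert w s e) (v, y) = fderiv ℝ (w e) (v, y) :=
      ((hw.hasFDerivAt he v hy).add_const (s • area k m)).fderiv
    rw [h1]
    exact hw.closed e he v y hy a b c

theorem pert_invariant (hi : Invariant (k + 2) w) (s : ℝ) : Invariant (k + 2) (pert w s) := by
  intro e he v y hy z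
  unfold pert
  rw [hi e he v y hy z]

theorem pert_symplectic [IsManifold 𝓘(ℝ, R m) ∞ X] [CompactSpace X]
    (hw : Symplectic (k + 2) w) (hi : Invariant (k + 2) w) :
    ∀ᶠ s in 𝓝 (0 : ℝ), Symplectic (k + 2) (pert w s) := by
  have key : ∀ᶠ s in 𝓝 (0 : ℝ), ∀ x ∈ (Set.univ : Set X), ∀ e' ∈ atlas (R m) X, x ∈ e'.source →
      ∀ v a, (∀ b, pert w s e' (v, e' x) a b = 0) → a = 0 := by
    refine isCompact_univ.eventually_forall_of_forall_eventually fun x _ => ?_
    set e := chartAt (R m) x with hedef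
    have he : e ∈ atlas (R m) X := chart_mem_atlas _ x
    have hxe : x ∈ e.source := mem_chart_source _ x
    have h1 : Function.Injective (w e (0, e x)) := by
      refine (injective_iff_map_eq_zero (w e (0, e x))).2 fun a ha => ?_
      refine hw.nondeg e he 0 (e x) (e.map_source hxe) a fun b => ?_
      rw [ha]
      rfl
    have h2 : ContinuousAt (fun q : ℝ × X => w e (0, e q.2) + q.1 • area k m) (0, x) := by
      have h3 : ContinuousAt (w e) ((0 : R (k + 2)), e x) :=
        (hw.contDiffAt he 0 (e.map_source hxe)).continuousAt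
      have h4 : ContinuousAt (fun q : ℝ × X => (((0 : R (k + 2)), e q.2) : V (k + 2) m)) (0, x) :=
        continuousAt_const.prodMk ((e.continuousAt hxe).comp continuousAt_snd)
      have h5 : ContinuousAt (fun q : ℝ × X => w e ((0 : R (k + 2)), e q.2)) (0, x) :=
        ContinuousAt.comp (g := w e) h3 h4
      exact h5.add (continuousAt_fst.smul continuousAt_const)
    have h6 : ∀ᶠ q : ℝ × X in 𝓝 (0, x),
        Function.Injective (w e (0, e q.2) + q.1 • area k m) := by
      have h61 : Function.Injective (w e (0, e x) + (0 : ℝ) • area k m) := by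
        rw [zero_smul, add_zero]
        exact h1
      exact h2.eventually_mem ((ContinuousLinearMap.isOpen_injective (𝕜 := ℝ) (E := V (k + 2) m)
        (F := V (k + 2) m →L[ℝ] ℝ)).mem_nhds h61)
    have h7 : ∀ᶠ q : ℝ × X in 𝓝 (0, x), q.2 ∈ e.source :=
      continuousAt_snd.eventually (e.open_source.mem_nhds hxe)
    filter_upwards [h6, h7] with q hq hqe e' he' hqe' v a ha
    have hi' := pert_invariant hi q.1
    refine (pert_closed hw.toClosedForm q.1).nondeg_transfer he he' v hqe hqe' ?_ a ha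
    intro a' ha'
    rw [hi'.eq_zero he v (e.map_source hqe)] at ha'
    have h8 : pert w q.1 e (0, e q.2) a' = 0 :=
      ContinuousLinearMap.ext fun b => ha' b
    exact (injective_iff_map_eq_zero (w e (0, e q.2) + q.1 • area k m)).1 hq a' h8
  filter_upwards [key] with s hs
  refine ⟨pert_closed hw.toClosedForm s, fun e he v y hy a ha => ?_⟩
  refine hs (e.symm y) trivial e he (e.map_target hy) v a ?_
  rw [e.right_inv hy]
  exact ha

/-- From `ℝ^(k+2) × X` to `ℝ^k × X`. -/
theorem exists_down [IsManifold 𝓘(ℝ, R m) ∞ X] [CompactSpace X] [ConnectedSpace X]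
    (hw : Symplectic (k + 2) w) (hi : Invariant (k + 2) w) :
    ∃ w' : OpenPartialHomeomorph X (R m) → V (k + 2) m → V (k + 2) m →L[ℝ] V (k + 2) m →L[ℝ] ℝ,
      Symplectic (k + 2) w' ∧ Invariant (k + 2) w' ∧ ∃ c : ℝ, c ≠ 0 ∧
        ∀ e ∈ atlas (R m) X, ∀ y ∈ e.target, w' e (0, y) (u0 k, 0) (u1 k, 0) = c := by
  obtain ⟨c, hc⟩ := const_pair hw.toClosedForm hi (u0 k) (u1 k)
  by_cases h0 : c = 0
  · have h1 := pert_symplectic hw hi
    have h2 : ∀ᶠ s in 𝓝[≠] (0 : ℝ), Symplectic (k + 2) (pert w s) ∧ s ≠ 0 :=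
      (h1.filter_mono nhdsWithin_le_nhds).and self_mem_nhdsWithin
    obtain ⟨s, hs, hs0⟩ := h2.exists
    refine ⟨pert w s, hs, pert_invariant hi s, s, hs0, fun e he y hy => ?_⟩
    rw [pert_apply, hc e he y hy, h0]
    simp [u0, u1]
  · exact ⟨w, hw, hi, c, h0, hc⟩

end Pool.Agent.W_9986fc_h48
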