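import Pool.Agent.W_9986fc_h48.Lin

set_option autoImplicit false
set_option maxSynthPendingDepth 3

open scoped ContDiff Manifold Topology

namespace Pool.Agent.W_9986fc_h48

variable {k m : ℕ}

/-- The standard scalar product of `ℝ^k × ℝ^m`. -/
noncomputable def sp (k m : ℕ) : V k m →ₗ[ℝ] V k m →ₗ[ℝ] ℝ :=
  LinearMap.mk₂ ℝ (fun a b => (∑ i, a.1 i * b.1 i) + ∑ j, a.2 j * b.2 j)
    (by
      intro a a' b
      simp only [Prod.fst_add, Prod.snd_add, Pi.add_apply, add_mul, Finset.sum_add_distrib]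
      ring)
    (by
      intro c a b
      simp only [Prod.smul_fst, Prod.smul_snd, Pi.smul_apply, smul_eq_mul, mul_assoc,
        ← Finset.mul_sum, mul_add])
    (by
      intro a b b'
      simp only [Prod.fst_add, Prod.snd_add, Pi.add_apply, mul_add, Finset.sum_add_distrib]
      ring)
    (by
      intro c a b
      simp only [Prod.smul_fst, Prod.smul_snd, Pi.smul_apply, smul_eq_mul, mul_left_comm _ c,
        ← Finset.mul_sum, mul_add])

theorem sp_apply (a b : V k m) :
    sp k m a b = (∑ i, a.1 i * b.1 i) + ∑ j, a.2 j * b.2 j := rfl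

theorem sp_pos (a : V k m) (ha : a ≠ 0) : 0 < sp k m a a := by
  rw [sp_apply]
  have h1 : 0 ≤ ∑ i, a.1 i * a.1 i := Finset.sum_nonneg fun i _ => mul_self_nonneg _
  have h2 : 0 ≤ ∑ j, a.2 j * a.2 j := Finset.sum_nonneg fun i _ => mul_self_nonneg _
  rcases h1.lt_or_eq with h | h
  · linarith
  rcases h2.lt_or_eq with h' | h'
  · linarith
  exfalso
  apply ha
  have h3 := (Finset.sum_eq_zero_iff_of_nonneg (fun i _ => mul_self_nonneg _)).1 h.symm
  have h4 := (Finset.sum_eq_zero_iff_of_nonneg (fun i _ => mul_self_nonneg _)).1 h'.symm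
  refine Prod.ext (funext fun i => ?_) (funext fun j => ?_)
  · exact mul_self_eq_zero.1 (h3 i (Finset.mem_univ i))
  · exact mul_self_eq_zero.1 (h4 j (Finset.mem_univ j))

/-- A nondegenerate form tames an endomorphism. -/
theorem exists_tamed (B : V k m →L[ℝ] V k m →L[ℝ] ℝ) (hB : ∀ b, (∀ a, B a b = 0) → b = 0) :
    ∃ A : V k m →ₗ[ℝ] V k m, ∀ a, a ≠ 0 → 0 < B a (A a) := by
  let T : V k m →ₗ[ℝ] Module.Dual ℝ (V k m) :=
    LinearMap.mk₂ ℝ (fun b a => B a b) (by intros; simp) (by intros; simp) (by intros; simp)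
      (by intros; simp)
  have hT : Function.Injective T := by
    rw [← LinearMap.ker_eq_bot, LinearMap.ker_eq_bot']
    intro b hb
    exact hB b fun a => LinearMap.congr_fun hb a
  let L := LinearMap.linearEquivOfInjective T hT Subspace.dual_finrank_eq.symm
  have hL : ∀ φ a, B a (L.symm φ) = φ a := by
    intro φ a
    have h1 : T (L.symm φ) = φ := L.apply_symm_apply φ
    exact LinearMap.congr_fun h1 a
  refine ⟨L.symm.toLinearMap ∘ₗ sp k m, fun a ha => ?_⟩
  have h2 : B a ((L.symm.toLinearMap ∘ₗ sp k m) a) = sp k m a a := hL (sp k m a) a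
  rw [h2]
  exact sp_pos a ha

variable {X : Type} [TopologicalSpace X] [ChartedSpace (R m) X]
  {w : OpenPartialHomeomorph X (R m) → V k m → V k m →L[ℝ] V k m →L[ℝ] ℝ}

theorem Invariant.tames (hi : Invariant k w) (hw : Symplectic k w) : TamesInvariant k w := by
  intro e he y hy
  obtain ⟨A, hA⟩ := exists_tamed (w e (0, y)) (fun b hb => hw.nondeg e he 0 y hy b fun a => by
    rw [hw.swap he 0 hy, hb a, neg_zero])
  refine ⟨A, fun v a ha => ?_⟩
  rw [hi.eq_zero he v hy]
  exact hA a ha

theorem Invariant.periodic (hi : Invariant k w) : Periodic k w :=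
  fun e he v y hy z => hi e he v y hy fun i => (z i : ℝ)

end Pool.Agent.W_9986fc_h48
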