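import Pool.Agent.W_9986fc_h48.Up
import Pool.Agent.W_9986fc_h48.Down
import Pool.Agent.W_9986fc_h48.Pert
import Pool.Agent.W_9986fc_h48.One
import Pool.Agent.W_9986fc_h48.OneB
import Pool.Agent.W_9986fc_h48.Ave
import Pool.Agent.W_9986fc_h48.Tame

set_option autoImplicit false
set_option maxSynthPendingDepth 3

open scoped ContDiff Manifold Topology

namespace Pool.Agent.W_9986fc_h48

variable {m : ℕ} {X : Type} [TopologicalSpace X] [ChartedSpace (R m) X]
  [IsManifold 𝓘(ℝ, R m) ∞ X] [CompactSpace X] [ConnectedSpace X]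

/-- `T^(k+2) × X` has an invariant symplectic form if and only if `T^k × X` has one. -/
theorem step (k : ℕ) :
    (∃ w : OpenPartialHomeomorph X (R m) → V (k + 2) m → V (k + 2) m →L[ℝ] V (k + 2) m →L[ℝ] ℝ,
      Symplectic (k + 2) w ∧ Invariant (k + 2) w) ↔
    (∃ w : OpenPartialHomeomorph X (R m) → V k m → V k m →L[ℝ] V k m →L[ℝ] ℝ,
      Symplectic k w ∧ Invariant k w) := by
  constructor
  · rintro ⟨w, hw, hi⟩
    obtain ⟨w', hw', hi', c, hc, hcw⟩ := exists_down hw hi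
    exact ⟨_, down_symplectic hw' hi' hc hcw⟩
  · rintro ⟨w, hw, hi⟩
    exact ⟨_, up_symplectic hw hi⟩

theorem even_case (j : ℕ) :
    (∃ w : OpenPartialHomeomorph X (R m) → V (2 * j) m → V (2 * j) m →L[ℝ] V (2 * j) m →L[ℝ] ℝ,
      Symplectic (2 * j) w ∧ Invariant (2 * j) w) ↔
    (∃ g : OpenPartialHomeomorph X (R m) → V 0 m → V 0 m →L[ℝ] V 0 m →L[ℝ] ℝ,
      Symplectic 0 g) := by
  induction j with
  | zero =>
    constructor
    · rintro ⟨w, hw, -⟩
      exact ⟨w, hw⟩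
    · rintro ⟨w, hw⟩
      refine ⟨w, hw, fun e _ v y _ z => ?_⟩
      have h : v + z = v := Subsingleton.elim (α := R 0) _ _
      rw [h]
  | succ j ih =>
    rw [← ih]
    exact step (2 * j)

theorem odd_case (j : ℕ) :
    (∃ w : OpenPartialHomeomorph X (R m) → V (2 * j + 1) m →
        V (2 * j + 1) m →L[ℝ] V (2 * j + 1) m →L[ℝ] ℝ,
      Symplectic (2 * j + 1) w ∧ Invariant (2 * j + 1) w) ↔
    (∃ (α : OpenPartialHomeomorph X (R m) → R m → R m →L[ℝ] ℝ)
      (g : OpenPartialHomeomorph X (R m) → V 0 m → V 0 m →L[ℝ] V 0 m →L[ℝ] ℝ),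
      Cosymplectic α g) := by
  induction j with
  | zero =>
    constructor
    · rintro ⟨w, hw, hi⟩
      exact ⟨_, _, cosymplectic_of hw hi⟩
    · rintro ⟨α, g, h⟩
      exact ⟨_, symplectic_of_cos h⟩
  | succ j ih =>
    rw [← ih]
    exact step (2 * j + 1)

theorem main (k : ℕ) :
    ((∃ w : OpenPartialHomeomorph X (R m) → V k m → V k m →L[ℝ] V k m →L[ℝ] ℝ,
        Symplectic k w ∧ Periodic k w ∧ TamesInvariant k w) ↔
      (∃ w : OpenPartialHomeomorph X (R m) → V k m → V k m →L[ℝ] V k m →L[ℝ] ℝ,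
        Symplectic k w ∧ Invariant k w)) ∧
    (Even k →
      ((∃ w : OpenPartialHomeomorph X (R m) → V k m → V k m →L[ℝ] V k m →L[ℝ] ℝ,
        Symplectic k w ∧ Invariant k w) ↔
      (∃ g : OpenPartialHomeomorph X (R m) → V 0 m → V 0 m →L[ℝ] V 0 m →L[ℝ] ℝ,
        Symplectic 0 g))) ∧
    (Odd k →
      ((∃ w : OpenPartialHomeomorph X (R m) → V k m → V k m →L[ℝ] V k m →L[ℝ] ℝ,
        Symplectic k w ∧ Invariant k w) ↔
      (∃ (α : OpenPartialHomeomorph X (R m) → R m → R m →L[ℝ] ℝ)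
        (g : OpenPartialHomeomorph X (R m) → V 0 m → V 0 m →L[ℝ] V 0 m →L[ℝ] ℝ),
        Cosymplectic α g))) := by
  refine ⟨⟨?_, ?_⟩, ?_, ?_⟩
  · rintro ⟨w, hw, hp, ht⟩
    exact ⟨_, ave_symplectic hw hp ht, ave_invariant⟩
  · rintro ⟨w, hw, hi⟩
    exact ⟨w, hw, hi.periodic, hi.tames hw⟩
  · intro hk
    obtain ⟨j, rfl⟩ := hk.two_dvd
    exact even_case j
  · rintro ⟨j, rfl⟩
    exact odd_case j

end Pool.Agent.W_9986fc_h48
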