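import Pool.Agent.W_9986fc_h48.Forms

/-!
MP_9986fc_gt (helper48).  `T^k`-invariant symplectic forms on `T^k × X`, `X` a compact connected
smooth manifold of dimension `m`.  Forms on `T^k × X` are the `ℤ^k`-periodic forms on `ℝ^k × X`, given
in the charts `id × e`, `e` a chart of `X`; see `Pool.Agent.W_9986fc_h48.Forms`.
-/

set_option autoImplicit false
set_option maxSynthPendingDepth 3

open scoped ContDiff Manifold

namespace Pool.Agent.Results.MP_9986fc_gt.TorusInvariant

open Pool.Agent.W_9986fc_h48.Forms

/-- For a compact connected smooth manifold `X` of dimension `m` the following are equivalent: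
`T^k × X` has a symplectic form taming a `T^k`-invariant field of endomorphisms (for instance a
`T^k`-invariant almost complex structure); `T^k × X` has a `T^k`-invariant symplectic form; `k` is even
and `X` has a symplectic form, or `k` is odd and `X` has a cosymplectic structure. -/
theorem result (k m : ℕ) (X : Type) [TopologicalSpace X] [ChartedSpace (R m) X]
    [IsManifold 𝓘(ℝ, R m) ∞ X] [CompactSpace X] [ConnectedSpace X] :
    List.TFAE [
      ∃ w : Fam2 k m X, Symplectic k w ∧ Periodic k w ∧ TamesInvariant k w,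
      ∃ w : Fam2 k m X, Symplectic k w ∧ Invariant k w,
      (Even k ∧ ∃ g : Fam2 0 m X, Symplectic 0 g) ∨
      (Odd k ∧ ∃ (α : Fam1 m X) (g : Fam2 0 m X), Cosymplectic α g)] := by
  obtain ⟨h1, h2, h3⟩ := Pool.Agent.W_9986fc_h48.main (X := X) (m := m) k
  simp only [← symplectic_iff, ← periodic_iff, ← invariant_iff, ← tamesInvariant_iff,
    ← cosymplectic_iff] at h1 h2 h3
  tfae_have 1 ↔ 2 := h1
  tfae_have 2 → 3 := by
    intro h
    rcases Nat.even_or_odd k with hk | hk
    · exact Or.inl ⟨hk, (h2 hk).1 h⟩
    · exact Or.inr ⟨hk, (h3 hk).1 h⟩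
  tfae_have 3 → 2 := by
    rintro (⟨hk, h⟩ | ⟨hk, h⟩)
    · exact (h2 hk).2 h
    · exact (h3 hk).2 h
  tfae_finish

end Pool.Agent.Results.MP_9986fc_gt.TorusInvariant
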