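import Pool.Agent.W_9986fc_h48.Lin

set_option autoImplicit false
set_option maxSynthPendingDepth 3

open scoped ContDiff Manifold Topology

namespace Pool.Agent.W_9986fc_h48

variable {m : ℕ} {X : Type} [TopologicalSpace X] [ChartedSpace (R m) X] {k : ℕ}
  {w : OpenPartialHomeomorph X (R m) → V k m → V k m →L[ℝ] V k m →L[ℝ] ℝ}

/-- The form `dv_0 ∧ dv_1 + w`. -/
noncomputable def up
    (w : OpenPartialHomeomorph X (R m) → V k m → V k m →L[ℝ] V k m →L[ℝ] ℝ)
    (e : OpenPartialHomeomorph X (R m)) (p : V (k + 2) m) :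
    V (k + 2) m →L[ℝ] V (k + 2) m →L[ℝ] ℝ :=
  area k m + pullL (Prj k m) (w e (Prj k m p))

omit [ChartedSpace (R m) X] in
theorem up_apply (e : OpenPartialHomeomorph X (R m)) (p a b : V (k + 2) m) :
    up w e p a b = (a.1 0 * b.1 1 - a.1 1 * b.1 0) + w e (Prj k m p) (Prj k m a) (Prj k m b) := by
  simp [up]

theorem up_symplectic (hw : Symplectic k w) (hi : Invariant k w) :
    Symplectic (k + 2) (up w) ∧ Invariant (k + 2) (up w) := by
  refine ⟨⟨⟨?_, ?_, ?_, ?_⟩, ?_⟩, ?_⟩
  · intro e he
    have h1 : Set.MapsTo (Prj k m) (Set.univ ×ˢ e.target) (Set.univ ×ˢ e.target) :=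
      fun p hp => ⟨trivial, hp.2⟩
    have h2 := (hw.smooth e he).comp (Prj k m).contDiff.contDiffOn h1
    exact contDiffOn_const.add ((pullL (Prj k m)).contDiff.comp_contDiffOn h2)
  · intro e he v y hy a
    rw [up_apply]
    have h := hw.alt e he (prj k v) y hy (Prj k m a)
    simp only [Prj_apply] at h ⊢
    rw [h]
    ring
  · intro e he e' he' v x hx hx' a b
    rw [up_apply, up_apply]
    have h := hw.compat e he e' he' (prj k v) x hx hx' (Prj k m a) (Prj k m b)
    simp only [Prj_apply] at h ⊢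
    rw [h]
  · intro e he v y hy a b c
    have h1 : HasFDerivAt (up w e) ((pullL (Prj k m)).comp
        ((fderiv ℝ (w e) (prj k v, y)).comp (Prj k m))) (v, y) := by
      have h2 := (hw.hasFDerivAt he (prj k v) hy)
      have h3 : HasFDerivAt (fun p => w e (Prj k m p))
          ((fderiv ℝ (w e) (prj k v, y)).comp (Prj k m)) (v, y) :=
        HasFDerivAt.comp (g := w e) (f := Prj k m) (v, y) h2 (Prj k m).hasFDerivAt
      have h4 := (pullL (Prj k m)).hasFDerivAt.comp (v, y) h3
      exact h4.const_add (area k m)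
    rw [h1.fderiv]
    have h5 := hw.closed e he (prj k v) y hy (Prj k m a) (Prj k m b) (Prj k m c)
    simpa using h5
  · intro e he v y hy a ha
    have h0 := ha (u1 k, 0)
    have h1 := ha (u0 k, 0)
    rw [up_apply] at h0 h1
    have e1 : Prj k m (u1 k, 0) = 0 := by simp [prj_u1]
    have e0 : Prj k m (u0 k, 0) = 0 := by simp [prj_u0]
    rw [e1] at h0
    rw [e0] at h1
    have h01 : (u0 k) 1 = 0 := by simp [u0]
    have h00 : (u0 k) 0 = 1 := by simp [u0]
    have h10 : (u1 k) 0 = 0 := by simp [u1]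
    have h11 : (u1 k) 1 = 1 := by simp [u1]
    simp only [h01, h00, h10, h11, map_zero] at h0 h1
    have ha0 : a.1 0 = 0 := by linarith
    have ha1 : a.1 1 = 0 := by linarith
    have h2 : Prj k m a = 0 := by
      refine hw.nondeg e he (prj k v) y hy _ fun b => ?_
      have h3 := ha (Inc k m b)
      rw [up_apply, Prj_Inc, ha0, ha1] at h3
      simpa using h3
    rw [decV a, ha0, ha1, h2]
    simp
  · intro e he v y hy z
    unfold up
    have h := hi e he (prj k v) y hy (prj k z)
    simp only [Prj_apply, map_add] at h ⊢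
    rw [h]

end Pool.Agent.W_9986fc_h48
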